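import Pool.Agent.Lib.H74F.Defs

/-!
# Chunk A1 (M)
Diagonal extraction. Build `s 0 = id`, `s (i+1) = s i ∘ ψ i` with `P i (s (i+1))` (choose `ψ i` from `hex i (s i)`; e.g. with a
recursion on the subtype of strictly monotone maps), `φ k := s k k`. For fixed `i` and `k ≥ i + 1`: `s k = s (i+1) ∘ θ k`, where
`θ k = ψ (i+1) ∘ ... ∘ ψ (k-1)` is strictly monotone, so `φ (k + (i+1)) = s (i+1) (χ k)`, `χ k := θ (k+i+1) (k+i+1)`. `χ` and `φ` are strictly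
monotone (`θ (k+1) (k+1) = θ k (ψ k (k+1)) ≥ θ k (k+1) > θ k k`, use `StrictMono.le_apply : x ≤ ψ x`). Then `htail i (s (i+1)) χ φ (i+1)`.
-/

set_option autoImplicit false

open Set Filter Topology Metric

namespace H74F

theorem a1_fam (P : ℕ → (ℕ → ℕ) → Prop)
    (hex : ∀ (i : ℕ) (φ : ℕ → ℕ), StrictMono φ → ∃ ψ : ℕ → ℕ, StrictMono ψ ∧ P i (φ ∘ ψ)) :
    ∃ (s ψ : ℕ → ℕ → ℕ), s 0 = id ∧ (∀ i, StrictMono (s i)) ∧ (∀ i, StrictMono (ψ i)) ∧
      (∀ i, s (i + 1) = s i ∘ ψ i) ∧ ∀ i, P i (s (i + 1)) := by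
  choose g hg1 hg2 using hex
  let S : ℕ → {φ : ℕ → ℕ // StrictMono φ} := fun n =>
    Nat.rec (motive := fun _ => {φ : ℕ → ℕ // StrictMono φ}) ⟨id, strictMono_id⟩
      (fun i t => ⟨t.1 ∘ g i t.1 t.2, t.2.comp (hg1 i t.1 t.2)⟩) n
  refine ⟨fun n => (S n).1, fun n => g n (S n).1 (S n).2, rfl, fun i => (S i).2, fun i => hg1 i _ _, fun i => rfl, fun i => ?_⟩
  exact hg2 i (S i).1 (S i).2

theorem diag (P : ℕ → (ℕ → ℕ) → Prop)
    (hex : ∀ (i : ℕ) (φ : ℕ → ℕ), StrictMono φ → ∃ ψ : ℕ → ℕ, StrictMono ψ ∧ P i (φ ∘ ψ))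
    (htail : ∀ (i : ℕ) (φ χ ψ : ℕ → ℕ) (N : ℕ), P i φ → StrictMono φ → StrictMono χ → StrictMono ψ →
      (∀ k, ψ (k + N) = φ (χ k)) → P i ψ) :
    ∃ φ : ℕ → ℕ, StrictMono φ ∧ ∀ i, P i φ := by
  obtain ⟨s, ψ, h0, hs, hψ, hrec, hP⟩ := a1_fam P hex
  have key : ∀ j : ℕ, ∃ χ : ℕ → ℕ, StrictMono χ ∧ ∀ k, s (k + j) (k + j) = s j (χ k) := by
    intro j
    let θ : ℕ → ℕ → ℕ := fun n => Nat.rec (motive := fun _ => ℕ → ℕ) id (fun k t => t ∘ ψ (j + k)) n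
    have hθ : ∀ k, θ (k + 1) = θ k ∘ ψ (j + k) := fun k => rfl
    have hθm : ∀ k, StrictMono (θ k) := by
      intro k
      induction k with
      | zero => exact strictMono_id
      | succ k ih => rw [hθ]; exact ih.comp (hψ _)
    have hsθ : ∀ k, s (j + k) = s j ∘ θ k := by
      intro k
      induction k with
      | zero => rfl
      | succ k ih => rw [← Nat.add_assoc, hrec, ih, hθ]; rfl
    refine ⟨fun k => θ k (k + j), ?_, ?_⟩
    · apply strictMono_nat_of_lt_succ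
      intro k
      show θ k (k + j) < θ (k + 1) (k + 1 + j)
      rw [hθ]
      have h1 : k + 1 + j ≤ ψ (j + k) (k + 1 + j) := (hψ _).le_apply
      have h2 : θ k (k + 1 + j) ≤ θ k (ψ (j + k) (k + 1 + j)) := (hθm k).monotone h1
      have h3 : θ k (k + j) < θ k (k + 1 + j) := hθm k (by omega)
      exact lt_of_lt_of_le h3 h2
    · intro k
      rw [Nat.add_comm k j, hsθ k, Nat.add_comm j k]
      rfl
  have hφ : StrictMono (fun k => s k k) := by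
    obtain ⟨χ, hχ, h⟩ := key 0
    have e : (fun k => s k k) = χ := by
      funext k
      have := h k
      rw [h0] at this
      simpa using this
    rw [e]
    exact hχ
  refine ⟨fun k => s k k, hφ, fun i => ?_⟩
  obtain ⟨χ, hχ, h⟩ := key (i + 1)
  exact htail i (s (i + 1)) χ _ (i + 1) (hP i) (hs _) hχ hφ h

end H74F
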