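import Pool.Agent.Lib.H74F.Defs

/-!
# Chunk A2 (S)
Elementary facts on `TendsConst`. `coe_iff`: neighbourhoods of `(a : OnePoint ℂ)` are the sets containing the image of a neighbourhood of `a`
(`OnePoint.nhds_coe_eq`, `OnePoint.isOpenEmbedding_coe`); `TendstoLocallyUniformlyOn F (fun _ => a) atTop D` unfolds with
`Metric.tendstoLocallyUniformlyOn_iff`. `comp`: an eventual statement along `atTop` pulled back by `φ → atTop`.
-/

set_option autoImplicit false

open Set Filter Topology Metric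

namespace H74F

theorem TendsConst.coe_iff {F : ℕ → ℂ → ℂ} {a : ℂ} {D : Set ℂ} :
    TendsConst F (a : OnePoint ℂ) D ↔ TendstoLocallyUniformlyOn F (fun _ => a) atTop D := by
  constructor
  · intro h u hu z hz
    have hV : (fun w : ℂ => (w : OnePoint ℂ)) '' {w | (a, w) ∈ u} ∈ 𝓝 (a : OnePoint ℂ) := by
      rw [OnePoint.nhds_coe_eq, mem_map, Set.preimage_image_eq _ OnePoint.coe_injective]
      exact mem_nhds_left a hu
    obtain ⟨t, ht, h1⟩ := h _ hV z hz
    refine ⟨t, ht, ?_⟩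
    filter_upwards [h1] with k hk y hy
    obtain ⟨w, hw, hwe⟩ := hk y hy
    have : w = F k y := OnePoint.coe_injective hwe
    rw [← this]
    exact hw
  · intro h V hV z hz
    rw [OnePoint.nhds_coe_eq, mem_map] at hV
    obtain ⟨u, hu, hsub⟩ := UniformSpace.mem_nhds_iff.mp hV
    obtain ⟨t, ht, h1⟩ := h u hu z hz
    refine ⟨t, ht, ?_⟩
    filter_upwards [h1] with k hk y hy
    exact hsub (hk y hy)

theorem TendsConst.tendsto {F : ℕ → ℂ → ℂ} {c : OnePoint ℂ} {D : Set ℂ} (h : TendsConst F c D) {z : ℂ} (hz : z ∈ D) :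
    Tendsto (fun k => ((F k z : ℂ) : OnePoint ℂ)) atTop (𝓝 c) := by
  intro V hV
  obtain ⟨t, ht, h1⟩ := h V hV z hz
  rw [mem_map]
  filter_upwards [h1] with k hk
  exact hk z (mem_of_mem_nhdsWithin hz ht)

theorem TendsConst.comp {F : ℕ → ℂ → ℂ} {c : OnePoint ℂ} {D : Set ℂ} (h : TendsConst F c D) {φ : ℕ → ℕ}
    (hφ : Tendsto φ atTop atTop) : TendsConst (fun k => F (φ k)) c D := by
  intro V hV z hz
  obtain ⟨t, ht, h1⟩ := h V hV z hz
  exact ⟨t, ht, hφ.eventually h1⟩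

theorem TendsConst.mono {F : ℕ → ℂ → ℂ} {c : OnePoint ℂ} {D U : Set ℂ} (h : TendsConst F c D) (hU : U ⊆ D) :
    TendsConst F c U := by
  intro V hV z hz
  obtain ⟨t, ht, h1⟩ := h V hV z (hU hz)
  exact ⟨t, nhdsWithin_mono z hU ht, h1⟩

theorem NormalOn.mono {f : ℂ → ℂ} {D U : Set ℂ} (h : NormalOn f D) (hU : U ⊆ D) : NormalOn f U := by
  intro n hn
  obtain ⟨φ, hφ, h1⟩ := h n hn
  refine ⟨φ, hφ, ?_⟩
  rcases h1 with ⟨g, hg, hl⟩ | h1
  · exact Or.inl ⟨g, hg.mono hU, hl.mono hU⟩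
  · exact Or.inr (h1.mono hU)

end H74F
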