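import Pool.Agent.Lib.H74F.Defs
import Pool.Agent.Lib.H74F.A2

/-!
# Chunk A5 (M)
`no_fix`. `KK f D` is infinite (`limitConstants` is infinite and every element is the image of an element of `KK f D` by `bdd`) and contained in `closedBall 0 R`.
The entire function `g z = f^[p] z - z` vanishes on it, so it has an accumulation point of zeros in the compact ball (`Set.Infinite.exists_accPt_of_subset_isCompact`)
and `g = 0` on `ℂ` (`AnalyticOnNhd.eqOn_zero_of_preconnected_of_frequently_eq_zero` on `univ`): `f^[p] = id`. In particular `f` is injective (`p ≥ 1`). Take `a ∈ KK f D` with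
`f^[n k] → a` on `D`, and two different points `z, z' ∈ D` (`D` is open and nonempty). The values `f^[n k] z` lie in the finite set `{f^[r] z : r < p}`
(`f^[n] z = f^[n % p] z`, e.g. `Function.iterate_mod_of...` or by `Nat.div_add_mod`), and converge to `a`, so are `= a` for large `k` (finite sets are closed and discrete;
e.g. `a` lies in the finite set `S`, and `{a}ᶜ ∩ S` is closed). The same for `z'`: so `f^[n k] z = f^[n k] z'`, contradiction with injectivity.
-/

set_option autoImplicit false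

open Set Filter Topology Metric

namespace H74F

private theorem A5_infinite {f : ℂ → ℂ} {D : Set ℂ} {R : ℝ} (h : Wd f D R) : (KK f D).Infinite := by
  intro hfin
  refine h.inf ((hfin.image (fun z : ℂ => (z : OnePoint ℂ))).subset ?_)
  intro c hc
  obtain ⟨z, _, rfl⟩ := h.bdd hc
  exact ⟨z, hc, rfl⟩

private theorem A5_subset {f : ℂ → ℂ} {D : Set ℂ} {R : ℝ} (h : Wd f D R) : KK f D ⊆ closedBall 0 R := by
  intro a ha
  obtain ⟨z, hz, hza⟩ := h.bdd ha
  have : z = a := OnePoint.coe_injective hza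
  exact this ▸ hz

private theorem A5_ev {f : ℂ → ℂ} {p : ℕ} (hp : 1 ≤ p) (hid : ∀ z, f^[p] z = z) {n : ℕ → ℕ} {a z : ℂ}
    (ht : Tendsto (fun k => f^[n k] z) atTop (𝓝 a)) : ∀ᶠ k in atTop, f^[n k] z = a := by
  set S : Set ℂ := (fun r => f^[r] z) '' {r | r < p} with hS
  have hSf : S.Finite := (Set.finite_lt_nat p).image _
  have hmem : ∀ k, f^[n k] z ∈ S := by
    intro k
    refine ⟨n k % p, Nat.mod_lt _ (by omega), ?_⟩
    exact Function.IsPeriodicPt.iterate_mod_apply (hid z) (n k)
  have hcl : IsClosed (S \ {a}) := (hSf.subset sdiff_subset).isClosed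
  have hev : ∀ᶠ k in atTop, f^[n k] z ∈ (S \ {a})ᶜ :=
    ht.eventually (hcl.isOpen_compl.mem_nhds (by simp))
  filter_upwards [hev] with k hk
  by_contra hne
  exact hk ⟨hmem k, hne⟩

theorem no_fix {f : ℂ → ℂ} {D : Set ℂ} {R : ℝ} (h : Wd f D R) {p : ℕ} (hp : 1 ≤ p)
    (hfix : ∀ a ∈ KK f D, f^[p] a = a) : False := by
  have hid : ∀ z, f^[p] z = z := by
    have hg : Differentiable ℂ (fun z => f^[p] z - z) := (h.entire.iterate p).sub differentiable_id
    have han : AnalyticOnNhd ℂ (fun z => f^[p] z - z) univ := fun z _ => hg.analyticAt z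
    obtain ⟨z0, _, hz0⟩ := (A5_infinite h).exists_accPt_of_subset_isCompact (isCompact_closedBall (0 : ℂ) R) (A5_subset h)
    have hfr : ∃ᶠ z in 𝓝[≠] z0, f^[p] z - z = 0 := by
      rw [accPt_iff_frequently_nhdsNE] at hz0
      refine hz0.mono ?_
      intro y hy
      rw [hfix y hy, sub_self]
    have := han.eqOn_zero_of_preconnected_of_frequently_eq_zero isPreconnected_univ (mem_univ z0) hfr
    intro z
    exact sub_eq_zero.1 (this (mem_univ z))
  have hinj : Function.Injective f := by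
    obtain ⟨q, rfl⟩ : ∃ q, p = q + 1 := ⟨p - 1, by omega⟩
    intro z z' hzz
    have h1 := hid z
    have h2 := hid z'
    rw [Function.iterate_succ_apply] at h1 h2
    rw [← h1, ← h2, hzz]
  obtain ⟨a, ha⟩ := (A5_infinite h).nonempty
  obtain ⟨n, _, hn⟩ := ha
  have hten : ∀ z ∈ D, Tendsto (fun k => f^[n k] z) atTop (𝓝 a) := by
    intro z hz
    have := hn.tendsto hz
    rw [OnePoint.isOpenEmbedding_coe.tendsto_nhds_iff]
    exact this
  obtain ⟨z, hz⟩ := h.ne
  obtain ⟨z', hz', hne⟩ : ∃ z' ∈ D, z' ≠ z := by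
    have h1 : D ∩ {z}ᶜ ∈ 𝓝[≠] z := inter_mem (mem_nhdsWithin_of_mem_nhds (h.opn.mem_nhds hz)) self_mem_nhdsWithin
    obtain ⟨y, hy1, hy2⟩ := (inferInstance : (𝓝[≠] z).NeBot).nonempty_of_mem h1
    exact ⟨y, hy1, hy2⟩
  obtain ⟨k, hk1, hk2⟩ := ((A5_ev hp hid (hten z hz)).and (A5_ev hp hid (hten z' hz'))).exists
  exact hne (hinj.iterate (n k) (hk2.trans hk1.symm))

theorem KK_infinite {f : ℂ → ℂ} {D : Set ℂ} {R : ℝ} (h : Wd f D R) : (KK f D).Infinite :=
  A5_infinite h

end H74F
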