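import Pool.Agent.Lib.H74F.Defs
import Pool.Agent.Lib.H74F.A2
import Pool.Agent.Lib.H74F.A5

/-!
# Chunk A6 (S)
`disj`: if `f^[n] z = f^[m] z'` with `z, z' ∈ D`, `m = n + p`, `p ≥ 1`: for every `a ∈ KK f D`, `f^[s k] → a` on `D`: for `s k ≥ n`
`f^[s k] z = f^[s k - n] (f^[n] z) = f^[s k - n] (f^[n + p] z') = f^[p] (f^[s k] z')`. The left side tends to `a`, the right side to `f^[p] a`
(pointwise limits from `TendsConst.coe_iff`, continuity of `f^[p]`), so `f^[p] a = a`: contradiction with `no_fix`.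
-/

set_option autoImplicit false

open Set Filter Topology Metric

namespace H74F

theorem disj {f : ℂ → ℂ} {D : Set ℂ} {R : ℝ} (h : Wd f D R) {n m : ℕ} (hnm : n < m) :
    Disjoint (f^[n] '' D) (f^[m] '' D) := by
  rw [Set.disjoint_left]
  rintro _ ⟨z, hz, rfl⟩ ⟨z', hz', he⟩
  obtain ⟨p, rfl⟩ : ∃ p, m = p + n := ⟨m - n, by omega⟩
  have hp : 1 ≤ p := by omega
  refine no_fix h hp fun a ha => ?_
  obtain ⟨s, hs, hsa⟩ := ha
  have h1 := TendsConst.coe_iff.mp hsa
  have hz1 : Tendsto (fun k => f^[s k] z) atTop (𝓝 a) := h1.tendsto_at hz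
  have hz2 : Tendsto (fun k => f^[s k] z') atTop (𝓝 a) := h1.tendsto_at hz'
  have hcont : Continuous f^[p] := (h.entire.iterate p).continuous
  have hz3 : Tendsto (fun k => f^[p] (f^[s k] z')) atTop (𝓝 (f^[p] a)) :=
    (hcont.tendsto a).comp hz2
  have heq : ∀ᶠ k in atTop, f^[s k] z = f^[p] (f^[s k] z') := by
    filter_upwards [hs.tendsto_atTop.eventually (eventually_ge_atTop n)] with k hk
    obtain ⟨j, hj⟩ : ∃ j, s k = j + n := ⟨s k - n, by omega⟩
    rw [hj, Function.iterate_add_apply f j n z, ← he, ← Function.iterate_add_apply,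
      ← Function.iterate_add_apply]
    congr 1
    omega
  exact tendsto_nhds_unique (hz3.congr' (heq.mono fun k hk => hk.symm)) hz1

end H74F
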