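import Pool.Agent.Lib.H74F.Defs
import Pool.Agent.Lib.H74F.A2
import Pool.Agent.Lib.H74F.A6

/-!
# Chunk A7 (M)
All limit functions on `D` are constants in `KK f D`. By normality of `D` there is `φ` with `f^[n (φ k)] → g` holomorphic, or `→ ∞`. The second case puts `∞` in
`limitConstants f D`, against `bdd`. In the first case fix `z0 ∈ D`. If `g` is locally constant at `z0` it is constant `= a` on `D` (identity theorem,
`AnalyticOnNhd.eqOn_of_preconnected_of_eventuallyEq`, `DifferentiableOn.analyticOnNhd`), and `a ∈ KK f D` with the sequence `n ∘ φ` (`TendsConst.coe_iff`,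
`TendstoLocallyUniformlyOn.congr_right`). Otherwise `g ≠ g z0` on a punctured neighbourhood (`AnalyticAt.eventually_eq_or_eventually_ne`); take `r > 0` with
`closedBall z0 r ⊆ D` and `g z ≠ g z0` on `sphere z0 r`, let `4ε > 0` be the minimum of `‖g z - g z0‖` on the sphere. For large `k`, `‖f^[n (φ k)] - g‖ < ε` on
`closedBall z0 r`, so `2ε ≤ ‖F z - F z0‖` on the sphere for `F = f^[n (φ k)]`, and `DiffContOnCl.ball_subset_image_closedBall` gives
`ball (F z0) ε ⊆ F '' closedBall z0 r` (`F` is not locally constant at `z0`: otherwise it is constant by the identity theorem on `univ`). For `k` large also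
`dist (F z0) (g z0) < ε`, so `g z0 ∈ f^[n (φ k)] '' D` for all large `k`: contradiction with `disj` (two different `k`).
-/

set_option autoImplicit false

open Set Filter Topology Metric

namespace H74F

theorem limit_const {f : ℂ → ℂ} {D : Set ℂ} {R : ℝ} (h : Wd f D R) {n : ℕ → ℕ} (hn : StrictMono n) :
    ∃ φ : ℕ → ℕ, StrictMono φ ∧ ∃ a ∈ KK f D,
      TendstoLocallyUniformlyOn (fun k => f^[n (φ k)]) (fun _ => a) atTop D := by
  obtain ⟨φ, hφ, ⟨g, hgd, hgl⟩ | hinf⟩ := h.normal n hn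
  swap
  · have h1 : (OnePoint.infty : OnePoint ℂ) ∈ limitConstants f D :=
      ⟨fun k => n (φ k), hn.comp hφ, hinf⟩
    obtain ⟨z, _, hz⟩ := h.bdd h1
    exact absurd hz (OnePoint.coe_ne_infty z)
  refine ⟨φ, hφ, ?_⟩
  obtain ⟨z0, hz0⟩ := h.ne
  have hga : AnalyticOnNhd ℂ g D := hgd.analyticOnNhd h.opn
  rcases (hga z0 hz0).eventually_eq_or_eventually_ne (analyticAt_const (v := g z0)) with hloc | hloc
  · have h2 : EqOn g (fun _ => g z0) D :=
      hga.eqOn_of_preconnected_of_eventuallyEq analyticOnNhd_const h.conn hz0 hloc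
    have h3 : TendstoLocallyUniformlyOn (fun k => f^[n (φ k)]) (fun _ => g z0) atTop D :=
      hgl.congr_right h2
    exact ⟨g z0, ⟨fun k => n (φ k), hn.comp hφ, TendsConst.coe_iff.mpr h3⟩, h3⟩
  exfalso
  have h4 : ∀ᶠ z in 𝓝 z0, z ∈ D ∧ (z ≠ z0 → g z ≠ g z0) :=
    Filter.Eventually.and (h.opn.mem_nhds hz0) (eventually_nhdsWithin_iff.mp hloc)
  obtain ⟨r, hr, hr1⟩ := nhds_basis_closedBall.mem_iff.mp h4
  have hrD : closedBall z0 r ⊆ D := fun z hz => (hr1 hz).1
  have hcg : ContinuousOn (fun z => ‖g z - g z0‖) (sphere z0 r) :=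
    ((hgd.continuousOn.mono (sphere_subset_closedBall.trans hrD)).sub continuousOn_const).norm
  obtain ⟨z1, hz1, hmin⟩ := (isCompact_sphere z0 r).exists_isMinOn
    (NormedSpace.sphere_nonempty.mpr hr.le) hcg
  have hpos : 0 < ‖g z1 - g z0‖ := by
    refine norm_sub_pos_iff.mpr ((hr1 (sphere_subset_closedBall hz1)).2 ?_)
    rintro rfl
    rw [mem_sphere, dist_self] at hz1
    exact hr.ne hz1
  obtain ⟨ε, hε⟩ : ∃ ε, ε = ‖g z1 - g z0‖ / 4 := ⟨_, rfl⟩
  have hε0 : 0 < ε := by rw [hε]; linarith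
  have hunif := Metric.tendstoUniformlyOn_iff.mp
    ((tendstoLocallyUniformlyOn_iff_tendstoUniformlyOn_of_compact (isCompact_closedBall z0 r)).mp
      (hgl.mono hrD)) ε hε0
  have hmem : ∀ᶠ k in atTop, g z0 ∈ f^[n (φ k)] '' D := by
    filter_upwards [hunif] with k hk
    have hc0 : z0 ∈ closedBall z0 r := mem_closedBall_self hr.le
    have hdiff : Differentiable ℂ f^[n (φ k)] := h.entire.iterate _
    have hsph : ∀ z ∈ sphere z0 r, 2 * ε ≤ ‖f^[n (φ k)] z - f^[n (φ k)] z0‖ := by
      intro z hz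
      have e1 := hk z (sphere_subset_closedBall hz)
      have e2 := hk z0 hc0
      have e3 : ‖g z1 - g z0‖ ≤ ‖g z - g z0‖ := hmin hz
      have e4 : ‖g z - g z0‖ ≤ dist (g z) (f^[n (φ k)] z) +
          ‖f^[n (φ k)] z - f^[n (φ k)] z0‖ + dist (g z0) (f^[n (φ k)] z0) := by
        rw [← dist_eq_norm, ← dist_eq_norm]
        have := dist_triangle4 (g z) (f^[n (φ k)] z) (f^[n (φ k)] z0) (g z0)
        rw [dist_comm (f^[n (φ k)] z0) (g z0)] at this
        exact this
      linarith
    have hfreq : ∃ᶠ z in 𝓝 z0, f^[n (φ k)] z ≠ f^[n (φ k)] z0 := by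
      intro hall
      have hall' : ∀ᶠ z in 𝓝 z0, f^[n (φ k)] z = f^[n (φ k)] z0 :=
        hall.mono fun z hz => not_not.mp hz
      have hE : AnalyticOnNhd ℂ f^[n (φ k)] univ :=
        hdiff.differentiableOn.analyticOnNhd isOpen_univ
      have h5 : EqOn f^[n (φ k)] (fun _ => f^[n (φ k)] z0) univ :=
        hE.eqOn_of_preconnected_of_eventuallyEq analyticOnNhd_const isPreconnected_univ
          (mem_univ z0) hall'
      have h6 := hsph z1 hz1
      rw [h5 (mem_univ z1), sub_self, norm_zero] at h6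
      linarith
    have hsub := (hdiff.diffContOnCl (s := ball z0 r)).ball_subset_image_closedBall hr hsph hfreq
    have h7 : g z0 ∈ ball (f^[n (φ k)] z0) (2 * ε / 2) := by
      rw [mem_ball]
      have := hk z0 hc0
      linarith
    exact image_mono hrD (hsub h7)
  obtain ⟨k, hk⟩ := (hmem.and ((tendsto_add_atTop_nat 1).eventually hmem)).exists
  have hlt : n (φ k) < n (φ (k + 1)) := hn (hφ (Nat.lt_succ_self k))
  exact Set.disjoint_left.mp (disj h hlt) hk.1 hk.2

end H74F
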