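import Pool.Agent.Lib.H74F.Defs
import Pool.Agent.Lib.H74F.A2
import Pool.Agent.Lib.H74F.A7

/-!
# Chunk A10 (M)
`KK_eq`: `⊆`: pointwise convergence at `z` along a strictly monotone sequence gives a cluster point (`Tendsto.mapClusterPt`, `MapClusterPt.of_comp`). `⊇`: a cluster point of a
sequence in `ℂ` is the limit of a subsequence (`TopologicalSpace.FirstCountableTopology.tendsto_subseq`), `limit_const` gives a further subsequence converging on `D` to a constant
in `KK f D`, which is the cluster point. `KK_compact`: closed (`isClosed_setOf_clusterPt`) and contained in `closedBall 0 R`. `KK_maps`: continuity of `f`: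
`f^[s k] z → a` gives `f^[s k + 1] z → f a`.
-/

set_option autoImplicit false

open Set Filter Topology Metric

namespace H74F

theorem KK_eq {f : ℂ → ℂ} {D : Set ℂ} {R : ℝ} (h : Wd f D R) {z : ℂ} (hz : z ∈ D) :
    KK f D = {a | MapClusterPt a atTop (fun n : ℕ => f^[n] z)} := by
  ext a
  constructor
  · intro ha
    obtain ⟨n, hn, hc⟩ := ha
    have h1 : Tendsto (fun k => f^[n k] z) atTop (𝓝 a) :=
      (TendsConst.coe_iff.mp hc).tendsto_at hz
    have h2 : MapClusterPt a atTop ((fun m : ℕ => f^[m] z) ∘ n) := h1.mapClusterPt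
    exact MapClusterPt.of_comp hn.tendsto_atTop h2
  · intro ha
    obtain ⟨ψ, hψ, hlim⟩ := MapClusterPt.tendsto_subseq ha
    obtain ⟨φ, hφ, b, hb, hc⟩ := limit_const h hψ
    have h1 : Tendsto (fun k => f^[ψ (φ k)] z) atTop (𝓝 b) := hc.tendsto_at hz
    have h2 : Tendsto (fun k => f^[ψ (φ k)] z) atTop (𝓝 a) := hlim.comp hφ.tendsto_atTop
    rw [tendsto_nhds_unique h2 h1]
    exact hb

theorem KK_compact {f : ℂ → ℂ} {D : Set ℂ} {R : ℝ} (h : Wd f D R) : IsCompact (KK f D) := by
  obtain ⟨z, hz⟩ := h.ne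
  have hcl : IsClosed (KK f D) := by
    rw [KK_eq h hz]
    exact isClosed_setOfPred_clusterPt
  refine (isCompact_closedBall (0 : ℂ) R).of_isClosed_subset hcl fun a ha => ?_
  obtain ⟨w, hw, hwe⟩ := h.bdd ha
  have : w = a := OnePoint.coe_injective hwe
  rw [← this]
  exact hw

theorem KK_maps {f : ℂ → ℂ} {D : Set ℂ} {R : ℝ} (h : Wd f D R) : MapsTo f (KK f D) (KK f D) := by
  intro a ha
  obtain ⟨z, hz⟩ := h.ne
  obtain ⟨n, hn, hc⟩ := ha
  have h1 : Tendsto (fun k => f^[n k] z) atTop (𝓝 a) :=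
    (TendsConst.coe_iff.mp hc).tendsto_at hz
  have h2 : Tendsto (fun k => f^[n k + 1] z) atTop (𝓝 (f a)) := by
    have h3 : Tendsto (fun k => f (f^[n k] z)) atTop (𝓝 (f a)) :=
      (h.entire.continuous.tendsto a).comp h1
    refine h3.congr fun k => ?_
    rw [Function.iterate_succ_apply']
  rw [KK_eq h hz]
  have h4 : MapClusterPt (f a) atTop ((fun m : ℕ => f^[m] z) ∘ fun k => n k + 1) := h2.mapClusterPt
  exact MapClusterPt.of_comp (tendsto_add_atTop_nat 1 |>.comp hn.tendsto_atTop) h4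

end H74F
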