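import Pool.Agent.Lib.H74F.Defs
import Pool.Agent.Lib.H74F.A7

/-!
# Chunk A11 (M)
Take `ρ > 0` with `closedBall z ρ ⊆ D`. If the claim fails for `ε`, then frequently in `n` there is `w` in the closed ball with `ε ≤ infDist (f^[n] w) (KK f D)` or
`ε ≤ dist (f^[n] w) (f^[n] z)`; `Filter.extraction_of_frequently_atTop` gives a strictly monotone sequence of such `n`, `limit_const` a subsequence converging
uniformly on the closed ball (compact: `tendstoLocallyUniformlyOn_iff_forall_isCompact`) to `a ∈ KK f D`: contradiction (`infDist_le_dist_of_mem`).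
-/

set_option autoImplicit false

open Set Filter Topology Metric

namespace H74F

theorem unif {f : ℂ → ℂ} {D : Set ℂ} {R : ℝ} (h : Wd f D R) {z : ℂ} (hz : z ∈ D) :
    ∃ ρ : ℝ, 0 < ρ ∧ closedBall z ρ ⊆ D ∧ ∀ ε : ℝ, 0 < ε → ∃ N : ℕ, ∀ n ≥ N, ∀ w ∈ closedBall z ρ,
      infDist (f^[n] w) (KK f D) < ε ∧ dist (f^[n] w) (f^[n] z) < ε := by
  obtain ⟨ρ, hρ, hρD⟩ := nhds_basis_closedBall.mem_iff.mp (h.opn.mem_nhds hz)
  refine ⟨ρ, hρ, hρD, fun ε hε => ?_⟩
  by_contra hcon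
  push Not at hcon
  have hfr : ∃ᶠ n in atTop, ∃ w ∈ closedBall z ρ, infDist (f^[n] w) (KK f D) < ε → ε ≤ dist (f^[n] w) (f^[n] z) := by
    rw [frequently_atTop]
    intro N
    obtain ⟨n, hn, w, hw, hw2⟩ := hcon N
    exact ⟨n, hn, w, hw, hw2⟩
  obtain ⟨φ, hφ, hφP⟩ := extraction_of_frequently_atTop hfr
  obtain ⟨ψ, hψ, a, ha, hlim⟩ := limit_const h hφ
  have hunif := Metric.tendstoUniformlyOn_iff.mp
    ((tendstoLocallyUniformlyOn_iff_tendstoUniformlyOn_of_compact (isCompact_closedBall z ρ)).mp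
      (hlim.mono hρD)) (ε / 2) (by linarith)
  obtain ⟨k, hk⟩ := hunif.exists
  obtain ⟨w, hw, hw2⟩ := hφP (ψ k)
  have h1 := hk w hw
  have h2 := hk z (mem_closedBall_self hρ.le)
  have h3 : infDist (f^[φ (ψ k)] w) (KK f D) ≤ dist (f^[φ (ψ k)] w) a := infDist_le_dist_of_mem ha
  rw [dist_comm] at h1
  have h4 := hw2 (by linarith)
  have h5 := dist_triangle (f^[φ (ψ k)] w) a (f^[φ (ψ k)] z)
  linarith

end H74F
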