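import Pool.Agent.Lib.H74F.Defs
import Pool.Agent.Lib.H74F.A1
import Pool.Agent.Lib.H74F.A2

/-!
# Chunk A3 (M)
Locally normal implies normal. Countably many open sets `B i` (`i : ℕ`) with `NormalOn f (B i)`, `B i ⊆ D`, cover `D` (`TopologicalSpace.isOpen_iUnion_countable`
or `TopologicalSpace.countable_cover_nhdsWithin`; if `D = ∅` everything is trivial; enumerate the countable set with `Set.Countable.exists_eq_range`).
Given `n` strictly monotone apply `diag` to `P i φ := (∃ g, DifferentiableOn ℂ g (B i) ∧ TendstoLocallyUniformlyOn (fun k => f^[n (φ k)]) g atTop (B i)) ∨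
TendsConst (fun k => f^[n (φ k)]) ∞ (B i)` (`hex`: normality for `n ∘ φ`; `htail`: if `ψ (k+N) = φ (χ k)` then an `∀ᶠ k` statement for `φ k` gives one for `ψ k`,
since `χ k ≥ k`). With the diagonal `φ`: let `A` be the union of the `B i` of the first kind, `A'` the union of those of the second kind: open, `D = A ∪ A'`,
disjoint (at a common point `f^[n (φ k)] z` would converge in `ℂ` and to `∞`). `D` is preconnected, so `D ⊆ A` or `D ⊆ A'`
(`isPreconnected_iff_subset_of_disjoint` or `IsPreconnected.subset_or_subset`). First case: `g z := limUnder atTop (fun k => f^[n (φ k)] z)`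
agrees with `g i` on `B i` (pointwise limits are unique), so it is differentiable on `D` and the convergence is locally uniform on `D`
(`tendstoLocallyUniformlyOn_iUnion`/`TendstoLocallyUniformlyOn.congr_right`, or unfold). Second case: directly from the definition (`B i` open: `𝓝[B i] z = 𝓝[D] z = 𝓝 z`).
-/

set_option autoImplicit false

open Set Filter Topology Metric

namespace H74F

theorem a3_shift {p : ℕ → Prop} (N : ℕ) (h : ∀ᶠ k in atTop, p (k + N)) : ∀ᶠ k in atTop, p k := by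
  obtain ⟨m, hm⟩ := eventually_atTop.1 h
  refine eventually_atTop.2 ⟨m + N, fun k hk => ?_⟩
  have h1 := hm (k - N) (by omega)
  rwa [Nat.sub_add_cancel (by omega)] at h1

theorem a3_tail {φ χ ψ : ℕ → ℕ} {N : ℕ} (hχ : StrictMono χ) (h : ∀ k, ψ (k + N) = φ (χ k))
    {p : ℕ → Prop} (hp : ∀ᶠ k in atTop, p (φ k)) : ∀ᶠ k in atTop, p (ψ k) := by
  apply a3_shift N
  have h1 := hχ.tendsto_atTop.eventually hp
  filter_upwards [h1] with k hk
  rw [h k]
  exact hk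

theorem a3_cover {f : ℂ → ℂ} {D : Set ℂ} (hD : IsOpen D) (hne : D.Nonempty)
    (h : ∀ z ∈ D, ∃ U : Set ℂ, IsOpen U ∧ z ∈ U ∧ NormalOn f U) :
    ∃ B : ℕ → Set ℂ, (∀ i, IsOpen (B i)) ∧ (∀ i, B i ⊆ D) ∧ (∀ i, NormalOn f (B i)) ∧
      ∀ z ∈ D, ∃ i, z ∈ B i := by
  choose! U hUo hzU hUn using h
  obtain ⟨T, hTc, hT⟩ := TopologicalSpace.isOpen_iUnion_countable
    (fun z : D => U z ∩ D) (fun z => (hUo z z.2).inter hD)
  have hTne : T.Nonempty := by
    obtain ⟨z, hz⟩ := hne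
    have h1 : z ∈ ⋃ i : D, U i ∩ D := mem_iUnion.2 ⟨⟨z, hz⟩, hzU z hz, hz⟩
    rw [← hT] at h1
    obtain ⟨i, hi⟩ := mem_iUnion.1 h1
    obtain ⟨hiT, -⟩ := mem_iUnion.1 hi
    exact ⟨i, hiT⟩
  obtain ⟨e, he⟩ := hTc.exists_eq_range hTne
  refine ⟨fun i => U (e i) ∩ D, fun i => (hUo _ (e i).2).inter hD, fun i => inter_subset_right,
    fun i => (hUn _ (e i).2).mono inter_subset_left, fun z hz => ?_⟩
  have h1 : z ∈ ⋃ i : D, U i ∩ D := mem_iUnion.2 ⟨⟨z, hz⟩, hzU z hz, hz⟩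
  rw [← hT] at h1
  obtain ⟨i, hi⟩ := mem_iUnion.1 h1
  obtain ⟨hiT, hzi⟩ := mem_iUnion.1 hi
  rw [he] at hiT
  obtain ⟨k, rfl⟩ := hiT
  exact ⟨k, hzi⟩

theorem normalOn_of_local {f : ℂ → ℂ} {D : Set ℂ} (hD : IsOpen D) (hc : IsPreconnected D)
    (h : ∀ z ∈ D, ∃ U : Set ℂ, IsOpen U ∧ z ∈ U ∧ NormalOn f U) : NormalOn f D := by
  rcases D.eq_empty_or_nonempty with rfl | hne
  · intro n _
    refine ⟨id, strictMono_id, Or.inr ?_⟩
    intro V _ z hz
    exact absurd hz (notMem_empty z)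
  obtain ⟨B, hBo, hBD, hBn, hBc⟩ := a3_cover hD hne h
  intro n hn
  obtain ⟨φ, hφ, hP⟩ := diag (fun i φ => (∃ g : ℂ → ℂ, DifferentiableOn ℂ g (B i) ∧
      TendstoLocallyUniformlyOn (fun k => f^[n (φ k)]) g atTop (B i)) ∨
      TendsConst (fun k => f^[n (φ k)]) OnePoint.infty (B i))
    (fun i φ hφ => hBn i (n ∘ φ) (hn.comp hφ))
    (by
      intro i φ χ ψ N hP _ hχ _ hk
      rcases hP with ⟨g, hg, hl⟩ | hl
      · refine Or.inl ⟨g, hg, ?_⟩
        intro u hu z hz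
        obtain ⟨t, ht, h1⟩ := hl u hu z hz
        exact ⟨t, ht, a3_tail (p := fun m => ∀ y ∈ t, (g y, f^[n m] y) ∈ u) hχ hk h1⟩
      · refine Or.inr ?_
        intro V hV z hz
        obtain ⟨t, ht, h1⟩ := hl V hV z hz
        exact ⟨t, ht, a3_tail (p := fun m => ∀ y ∈ t, ((f^[n m] y : ℂ) : OnePoint ℂ) ∈ V)
          hχ hk h1⟩)
  refine ⟨φ, hφ, ?_⟩
  let I1 : Set ℕ := {i | ∃ g : ℂ → ℂ, DifferentiableOn ℂ g (B i) ∧
      TendstoLocallyUniformlyOn (fun k => f^[n (φ k)]) g atTop (B i)}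
  let I2 : Set ℕ := {i | TendsConst (fun k => f^[n (φ k)]) OnePoint.infty (B i)}
  have hA1 : IsOpen (⋃ i ∈ I1, B i) := isOpen_biUnion fun i _ => hBo i
  have hA2 : IsOpen (⋃ i ∈ I2, B i) := isOpen_biUnion fun i _ => hBo i
  have hcov : D ⊆ (⋃ i ∈ I1, B i) ∪ (⋃ i ∈ I2, B i) := by
    intro z hz
    obtain ⟨i, hi⟩ := hBc z hz
    rcases hP i with h1 | h1
    · exact Or.inl (mem_biUnion (show i ∈ I1 from h1) hi)
    · exact Or.inr (mem_biUnion (show i ∈ I2 from h1) hi)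
  have hdis : D ∩ ((⋃ i ∈ I1, B i) ∩ (⋃ i ∈ I2, B i)) = ∅ := by
    rw [eq_empty_iff_forall_notMem]
    rintro z ⟨-, hz1, hz2⟩
    obtain ⟨i, hi, hzi⟩ := mem_iUnion₂.1 hz1
    obtain ⟨j, hj, hzj⟩ := mem_iUnion₂.1 hz2
    obtain ⟨g, -, hl⟩ := hi
    have h1 : Tendsto (fun k => ((f^[n (φ k)] z : ℂ) : OnePoint ℂ)) atTop
        (𝓝 ((g z : ℂ) : OnePoint ℂ)) :=
      (OnePoint.continuous_coe.tendsto (g z)).comp (hl.tendsto_at hzi)
    have h2 := TendsConst.tendsto (show TendsConst (fun k => f^[n (φ k)]) OnePoint.infty (B j)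
      from hj) hzj
    exact OnePoint.coe_ne_infty (g z) (tendsto_nhds_unique h1 h2)
  rcases isPreconnected_iff_subset_of_disjoint.1 hc _ _ hA1 hA2 hcov hdis with hs | hs
  · left
    let g : ℂ → ℂ := fun z => limUnder atTop (fun k => f^[n (φ k)] z)
    have hloc : ∀ z ∈ D, ∃ i, z ∈ B i ∧ ∃ gi : ℂ → ℂ, DifferentiableOn ℂ gi (B i) ∧
        TendstoLocallyUniformlyOn (fun k => f^[n (φ k)]) gi atTop (B i) ∧
        ∀ y ∈ B i, g y = gi y := by
      intro z hz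
      obtain ⟨i, ⟨gi, hgi, hl⟩, hzi⟩ := mem_iUnion₂.1 (hs hz)
      exact ⟨i, hzi, gi, hgi, hl, fun y hy => (hl.tendsto_at hy).limUnder_eq⟩
    refine ⟨g, fun z hz => ?_, fun u hu z hz => ?_⟩
    · obtain ⟨i, hzi, gi, hgi, hl, he⟩ := hloc z hz
      have h1 : DifferentiableAt ℂ gi z := hgi.differentiableAt ((hBo i).mem_nhds hzi)
      have h2 : g =ᶠ[𝓝 z] gi := by
        filter_upwards [(hBo i).mem_nhds hzi] with y hy
        exact he y hy
      exact (h1.congr_of_eventuallyEq h2).differentiableWithinAt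
    · obtain ⟨i, hzi, gi, hgi, hl, he⟩ := hloc z hz
      obtain ⟨t, ht, h1⟩ := hl u hu z hzi
      refine ⟨t ∩ B i, ?_, ?_⟩
      · rw [(hBo i).nhdsWithin_eq hzi] at ht
        exact mem_nhdsWithin_of_mem_nhds (inter_mem ht ((hBo i).mem_nhds hzi))
      · filter_upwards [h1] with k hk y hy
        rw [he y hy.2]
        exact hk y hy.1
  · right
    intro V hV z hz
    obtain ⟨j, hj, hzj⟩ := mem_iUnion₂.1 (hs hz)
    obtain ⟨t, ht, h1⟩ := (show TendsConst (fun k => f^[n (φ k)]) OnePoint.infty (B j) from hj)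
      V hV z hzj
    rw [(hBo j).nhdsWithin_eq hzj] at ht
    exact ⟨t, mem_nhdsWithin_of_mem_nhds ht, h1⟩

end H74F
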