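import Pool.Agent.Lib.H74F.Defs
import Pool.Agent.Lib.H74F.A3

/-!
# Chunk A4 (S)
`fatouSet f` is open (every point of the `U` in the definition is in it), so its components are open (`IsOpen.connectedComponentIn`, `ℂ` is locally connected),
preconnected (`isPreconnected_connectedComponentIn`), nonempty (`mem_connectedComponentIn`), and locally normal, hence normal by `normalOn_of_local`.
-/

set_option autoImplicit false

open Set Filter Topology Metric

namespace H74F

theorem component_facts {f : ℂ → ℂ} {D : Set ℂ} (h : IsFatouComponent f D) :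
    IsOpen D ∧ IsPreconnected D ∧ D.Nonempty ∧ NormalOn f D := by
  obtain ⟨z, hz, rfl⟩ := h
  have hopen : IsOpen (fatouSet f) := by
    rw [isOpen_iff_forall_mem_open]
    rintro x ⟨U, hU, hxU, hN⟩
    exact ⟨U, fun y hy => ⟨U, hU, hy, hN⟩, hU, hxU⟩
  have h1 : IsOpen (connectedComponentIn (fatouSet f) z) := hopen.connectedComponentIn
  have h2 : IsPreconnected (connectedComponentIn (fatouSet f) z) :=
    isPreconnected_connectedComponentIn
  exact ⟨h1, h2, ⟨z, mem_connectedComponentIn hz⟩,
    normalOn_of_local h1 h2 fun y hy => (connectedComponentIn_subset (fatouSet f) z hy : y ∈ fatouSet f)⟩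

end H74F
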