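import Pool.Agent.Lib.H74F.Defs
import Pool.Agent.Lib.H74F.A2
import Pool.Agent.Lib.H74F.A6

/-!
# Chunk A8 (S)
`a = f^[n] w ∈ KK f D` with `w ∈ D`. `f^[n]` is not constant (else `f^[n] '' D` and `f^[n+1] '' D` have the same point: `f^[n] (f w) = f^[n] w` , and
`f^[n+1] w = f^[n] (f w)`; against `disj`), so `f^[n] '' D` is a neighbourhood of `a` (open mapping theorem: `AnalyticOnNhd.is_constant_or_isOpenMap`-like with `univ`,
or `AnalyticOnNhd.is_constant_or_isOpen`). With `f^[s k] → a` on `D`: `f^[s k] w ∈ f^[n] '' D` for large `k`, and `s k > n`: contradiction with `disj`.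
-/

set_option autoImplicit false

open Set Filter Topology Metric

namespace H74F

theorem KK_disj {f : ℂ → ℂ} {D : Set ℂ} {R : ℝ} (h : Wd f D R) (n : ℕ) :
    Disjoint (f^[n] '' D) (KK f D) := by
  rw [Set.disjoint_left]
  rintro a ⟨w, hw, rfl⟩ ha
  have han : AnalyticOnNhd ℂ f^[n] univ := by
    have h1 : Differentiable ℂ f^[n] := h.entire.iterate n
    exact h1.differentiableOn.analyticOnNhd isOpen_univ
  rcases han.is_constant_or_isOpen isPreconnected_univ with ⟨c, hc⟩ | hop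
  · have h1 : f^[n + 1] w = f^[n] w := by
      rw [Function.iterate_succ_apply, hc _ (mem_univ _), hc _ (mem_univ _)]
    exact (Set.disjoint_left.1 (disj h (Nat.lt_succ_self n))) ⟨w, hw, rfl⟩ ⟨w, hw, h1⟩
  · have ho : IsOpen (f^[n] '' D) := hop D (subset_univ D) h.opn
    obtain ⟨s, hs, hT⟩ := ha
    have ht : Tendsto (fun k => f^[s k] w) atTop (𝓝 (f^[n] w)) := (TendsConst.coe_iff.1 hT).tendsto_at hw
    have h2 : ∀ᶠ k in atTop, f^[s k] w ∈ f^[n] '' D := ht.eventually (ho.mem_nhds ⟨w, hw, rfl⟩)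
    have h3 : ∀ᶠ k in atTop, n < s k := hs.tendsto_atTop.eventually_gt_atTop n
    obtain ⟨k, hk2, hk3⟩ := (h2.and h3).exists
    exact (Set.disjoint_left.1 (disj h hk3)) hk2 ⟨w, hw, rfl⟩

end H74F
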