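import Pool.Agent.Lib.H74F.Defs
import Pool.Agent.Lib.H74F.A2
import Pool.Agent.Lib.H74F.A5
import Pool.Agent.Lib.H74F.A8

/-!
# Chunk A9 (M)
`KK f D` lies in the Julia set. Let `a ∈ KK f D`, `U` open, `a ∈ U`, `NormalOn f U`, `ball a r ⊆ U` (`r > 0`), `z0 ∈ D`. `f^[s k] z0 → a`, so there are `q < q'` (both values of `s`)
with `w := f^[q] z0 ∈ ball a r` and `f^[q'] z0 ∈ ball a r`; `p := q' - q ≥ 1`, `f^[p] w = f^[q'] z0`. Claim: `f^[p] b = b` for every `b ∈ KK f D` (then `no_fix`).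
Let `f^[t k] → b` on `D`. Apply `NormalOn.mono` (ball) to `k ↦ t (k + k0) - q` (strictly monotone if `t k0 ≥ q`): along a subsequence the maps `f^[t k - q]` converge on `ball a r`
to `g` or `∞`. At `w' = f^[q] z` (`z ∈ D`) with `w' ∈ ball a r` the values `f^[t k - q] w' = f^[t k] z` tend to `b`; so the limit is not `∞` (look at `w`), and `g = b` on the set
`f^[q] '' D ∩ ball a r`, which is a neighbourhood of `w` (open mapping, `f^[q]` is not constant, as in A8), so `g = b` on `ball a r` (identity theorem). At the point `f^[p] w`: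
`f^[t k - q] (f^[p] w) = f^[p] (f^[t k - q] w) = f^[p] (f^[t k] z0) → f^[p] b`, and the limit is `g (f^[p] w) = b`.
-/

set_option autoImplicit false

open Set Filter Topology Metric

namespace H74F

theorem a9_iter_diff {f : ℂ → ℂ} (hf : Differentiable ℂ f) (n : ℕ) : Differentiable ℂ f^[n] := by
  induction n with
  | zero => exact differentiable_id
  | succ n ih =>
    rw [Function.iterate_succ]
    exact ih.comp hf

theorem a9_open {f : ℂ → ℂ} {D : Set ℂ} {R : ℝ} (h : Wd f D R) (q : ℕ) : IsOpen (f^[q] '' D) := by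
  have hana : AnalyticOnNhd ℂ f^[q] univ := fun z _ => (a9_iter_diff h.entire q).analyticAt z
  rcases hana.is_constant_or_isOpen isPreconnected_univ with ⟨c, hc⟩ | ho
  · exfalso
    obtain ⟨z0, hz0⟩ := h.ne
    have hd := disj h (Nat.lt_succ_self q)
    refine (Set.disjoint_left.1 hd) (⟨z0, hz0, rfl⟩ : f^[q] z0 ∈ f^[q] '' D) ⟨z0, hz0, ?_⟩
    rw [Function.iterate_succ_apply, hc _ (mem_univ _), hc _ (mem_univ _)]
  · exact ho D (subset_univ _) h.opn

theorem KK_julia {f : ℂ → ℂ} {D : Set ℂ} {R : ℝ} (h : Wd f D R) : Disjoint (KK f D) (fatouSet f) := by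
  rw [Set.disjoint_left]
  rintro a ⟨s, hs, hsa⟩ ⟨U, hU, haU, hN⟩
  obtain ⟨r, hr, hrU⟩ := Metric.isOpen_iff.1 hU a haU
  have hNb : NormalOn f (ball a r) := hN.mono hrU
  obtain ⟨z0, hz0⟩ := h.ne
  have hlim : Tendsto (fun k => f^[s k] z0) atTop (𝓝 a) :=
    (TendsConst.coe_iff.1 hsa).tendsto_at hz0
  have hev := hlim.eventually (ball_mem_nhds a hr)
  obtain ⟨k1, hk1⟩ := hev.exists_forall_of_atTop
  have hk1b := hk1 k1 le_rfl
  have hk2b := hk1 (k1 + 1) (Nat.le_succ _)
  have hqq : s k1 < s (k1 + 1) := hs (Nat.lt_succ_self _)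
  generalize s k1 = q at hk1b hqq
  generalize s (k1 + 1) = q' at hk2b hqq
  obtain ⟨p, hp⟩ : ∃ p, q' = p + q := ⟨q' - q, by omega⟩
  have hp1 : 1 ≤ p := by omega
  subst hp
  have hpw : f^[p + q] z0 = f^[p] (f^[q] z0) := Function.iterate_add_apply f p q z0
  rw [hpw] at hk2b
  refine no_fix h hp1 fun b hb => ?_
  obtain ⟨t, ht, htb⟩ := hb
  have htb' := TendsConst.coe_iff.1 htb
  have htq : ∀ k, q ≤ t (k + q) := fun k => le_trans (by omega) (ht.le_apply (x := k + q))
  have hn' : StrictMono fun k => t (k + q) - q := by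
    intro k l hkl
    have h1 : t (k + q) < t (l + q) := ht (by omega)
    have h2 := htq k
    show t (k + q) - q < t (l + q) - q
    omega
  obtain ⟨φ, hφ, hcase⟩ := hNb (fun k => t (k + q) - q) hn'
  have hmt : Tendsto (fun k => φ k + q) atTop atTop :=
    tendsto_atTop_mono (fun k => Nat.le_add_right _ _) hφ.tendsto_atTop
  have hval : ∀ (k : ℕ) (z : ℂ), f^[t (φ k + q) - q] (f^[q] z) = f^[t (φ k + q)] z := by
    intro k z
    rw [← Function.iterate_add_apply, Nat.sub_add_cancel (htq (φ k))]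
  have hlimz : ∀ z ∈ D, Tendsto (fun k => f^[t (φ k + q) - q] (f^[q] z)) atTop (𝓝 b) := by
    intro z hz
    simp only [hval]
    exact (htb'.tendsto_at hz).comp hmt
  rcases hcase with ⟨g, hg, hgl⟩ | hinf
  · have hgb : ∀ z ∈ D, f^[q] z ∈ ball a r → g (f^[q] z) = b := by
      intro z hz hzb
      exact tendsto_nhds_unique (hgl.tendsto_at hzb) (hlimz z hz)
    have hga : AnalyticOnNhd ℂ g (ball a r) := hg.analyticOnNhd isOpen_ball
    have heq : EqOn g (fun _ => b) (ball a r) := by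
      refine hga.eqOn_of_preconnected_of_eventuallyEq analyticOnNhd_const
        (convex_ball a r).isPreconnected hk1b ?_
      have hnb : f^[q] '' D ∩ ball a r ∈ 𝓝 (f^[q] z0) :=
        inter_mem ((a9_open h q).mem_nhds ⟨z0, hz0, rfl⟩) (isOpen_ball.mem_nhds hk1b)
      filter_upwards [hnb] with y hy
      obtain ⟨⟨z, hz, rfl⟩, hyb⟩ := hy
      exact hgb z hz hyb
    have hl1 : Tendsto (fun k => f^[t (φ k + q) - q] (f^[p] (f^[q] z0))) atTop (𝓝 b) := by
      have := hgl.tendsto_at hk2b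
      rwa [heq hk2b] at this
    have hl2 : Tendsto (fun k => f^[t (φ k + q) - q] (f^[p] (f^[q] z0))) atTop (𝓝 (f^[p] b)) := by
      have h1 : ∀ k, f^[t (φ k + q) - q] (f^[p] (f^[q] z0)) =
          f^[p] (f^[t (φ k + q) - q] (f^[q] z0)) := by
        intro k
        rw [← Function.iterate_add_apply, ← Function.iterate_add_apply f p, Nat.add_comm]
      simp only [h1]
      exact ((a9_iter_diff h.entire p).continuous.tendsto b).comp (hlimz z0 hz0)
    exact tendsto_nhds_unique hl2 hl1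
  · exfalso
    have h1 := hinf.tendsto hk1b
    have h2 : Tendsto (fun k => ((f^[t (φ k + q) - q] (f^[q] z0) : ℂ) : OnePoint ℂ)) atTop
        (𝓝 (b : OnePoint ℂ)) :=
      (OnePoint.continuous_coe.tendsto b).comp (hlimz z0 hz0)
    exact OnePoint.coe_ne_infty b (tendsto_nhds_unique h2 h1)

end H74F
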