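import Pool.Agent.Lib.H74F.Defs

/-!
# Chunk B1 (M)
Orbit closures. `PP_maps`: `f` maps the range into itself, closure by continuity. `PP_sub`: the range is in `K`. `PP_nested`: `PP f c'` is closed, invariant and contains `c`, so contains
`f^[k+1] c`. `rec_of_mem`: let `V` be an open neighbourhood of `c`, `N` given; we need `n ≥ N` with `f^[n] c ∈ V` (`mapClusterPt_iff_frequently`, `frequently_atTop`). If there is none, then
`V` meets the range only in the finite set `F` of the `f^[k+1] c`, `k < N`, so `c ∈ closure F = F` (finite sets are closed): `c = f^[k+1] c` for some `k`, then `f^[(k+1) m] c = c ∈ V`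
for all `m` (`Function.iterate_mul`, `Function.iterate_fixed`), contradiction for large `m`. `not_mem_PP`: otherwise `c` is recurrent, `hrec` with `C = 1` gives `n` with
`1 < ‖deriv f^[n] c‖`; `n = 0` gives `1 < 1`, and for `n = m + 1` the chain rule (`deriv_comp` / `HasDerivAt.iterate`, `f^[m+1] = f^[m] ∘ f`) gives `0`.
-/

set_option autoImplicit false

open Set Filter Topology Metric

namespace H74F

theorem PP_maps {f : ℂ → ℂ} (hf : Continuous f) (c : ℂ) : MapsTo f (PP f c) (PP f c) := by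
  refine MapsTo.closure ?_ hf
  rintro _ ⟨k, rfl⟩
  refine ⟨k + 1, ?_⟩
  show f^[k + 1 + 1] c = f (f^[k + 1] c)
  rw [Function.iterate_succ_apply' f (k + 1) c]

theorem PP_sub {f : ℂ → ℂ} {K : Set ℂ} (hK : IsClosed K) (hm : MapsTo f K K) {c : ℂ} (hc : c ∈ K) :
    PP f c ⊆ K := by
  refine closure_minimal ?_ hK
  rintro _ ⟨k, rfl⟩
  exact hm.iterate (k + 1) hc

theorem map_mem_PP (f : ℂ → ℂ) (c : ℂ) : f c ∈ PP f c :=
  subset_closure ⟨0, rfl⟩

theorem PP_nested {f : ℂ → ℂ} (hf : Continuous f) {c c' : ℂ} (h : c ∈ PP f c') : PP f c ⊆ PP f c' :=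
  PP_sub isClosed_closure (PP_maps hf c') h

theorem rec_of_mem {f : ℂ → ℂ} {c : ℂ} (hc : c ∈ PP f c) : Rec f c := by
  unfold Rec
  rw [mapClusterPt_iff_frequently]
  intro s hs
  by_contra hfr
  rw [not_frequently, eventually_atTop] at hfr
  obtain ⟨N, hN⟩ := hfr
  have hfin : ((fun k : ℕ => f^[k + 1] c) '' (Set.Iio N)).Finite := (Set.finite_Iio N).image _
  have hcl : c ∈ closure ((fun k : ℕ => f^[k + 1] c) '' (Set.Iio N)) := by
    rw [mem_closure_iff_nhds]
    intro t ht
    obtain ⟨y, hy, k, rfl⟩ := mem_closure_iff_nhds.1 hc (t ∩ s) (inter_mem ht hs)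
    refine ⟨f^[k + 1] c, hy.1, k, ?_, rfl⟩
    by_contra hk
    exact hN (k + 1) (by have := not_lt.1 (fun h => hk (Set.mem_Iio.2 h)); omega) hy.2
  rw [hfin.isClosed.closure_eq] at hcl
  obtain ⟨k, -, hk⟩ := hcl
  have hk' : f^[k + 1] c = c := hk
  have h2 : f^[(k + 1) * N] c = c := by
    rw [Function.iterate_mul]
    exact Function.iterate_fixed hk' N
  exact hN ((k + 1) * N) (Nat.le_mul_of_pos_left N (Nat.succ_pos k)) (by rw [h2]; exact mem_of_mem_nhds hs)

theorem not_mem_PP {f : ℂ → ℂ} {K : Set ℂ} (h : Dy f K) {c : ℂ} (hc : c ∈ crit f K) : c ∉ PP f c := by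
  intro hmem
  obtain ⟨n, hn⟩ := h.hrec c hc.1 (rec_of_mem hmem) 1
  rcases n with _ | m
  · simp at hn
  · have h1 : f^[m + 1] = f^[m] ∘ f := Function.iterate_succ f m
    have h2 : DifferentiableAt ℂ f^[m] (f c) := (h.entire.iterate m) (f c)
    have h3 : deriv (f^[m] ∘ f) c = deriv f^[m] (f c) * deriv f c := deriv_comp c h2 (h.entire c)
    rw [h1, h3, hc.2, mul_zero, norm_zero] at hn
    linarith

end H74F
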