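import Pool.Agent.Lib.H74F.Defs

/-!
# Chunk B2 (S)
`deriv_ne`: if `deriv f = 0` everywhere then `f` is constant `= a` (`is_const_of_deriv_eq_zero`), `a ∈ K` (`K` is nonempty and invariant), `a` is recurrent (`f^[n] a = a`), and
`‖deriv f^[n] a‖ ≤ 1` for all `n` (`0` for `n ≥ 1`), against `hrec` with `C = 1`. `crit_finite`: otherwise the zeros of the entire function `deriv f` in the compact set `K`
accumulate (`Set.Infinite.exists_accPt_of_subset_isCompact`), and `deriv f = 0` on `ℂ` (identity theorem on `univ`).
-/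

set_option autoImplicit false

open Set Filter Topology Metric

namespace H74F

theorem deriv_ne {f : ℂ → ℂ} {K : Set ℂ} (h : Dy f K) : ∃ z, deriv f z ≠ 0 := by
  by_contra hcon
  push Not at hcon
  obtain ⟨z, hz⟩ := h.ne
  have hconst : ∀ x y, f x = f y := is_const_of_deriv_eq_zero h.entire hcon
  have hfix : f (f z) = f z := hconst _ _
  have hK : f z ∈ K := h.maps hz
  have hrec : Rec f (f z) := by
    have h1 : (fun n : ℕ => f^[n] (f z)) = fun _ => f z := by
      funext n
      exact Function.iterate_fixed hfix n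
    unfold Rec
    rw [h1]
    exact tendsto_const_nhds.mapClusterPt
  obtain ⟨n, hn⟩ := h.hrec _ hK hrec 1
  rcases n with _ | m
  · simp at hn
  · have h1 : f^[m + 1] = f^[m] ∘ f := Function.iterate_succ f m
    have h2 : DifferentiableAt ℂ f^[m] (f (f z)) := (h.entire.iterate m) (f (f z))
    have h3 : deriv (f^[m] ∘ f) (f z) = deriv f^[m] (f (f z)) * deriv f (f z) :=
      deriv_comp (f z) h2 (h.entire (f z))
    rw [h1, h3, hcon, mul_zero, norm_zero] at hn
    linarith

theorem crit_finite {f : ℂ → ℂ} {K : Set ℂ} (h : Dy f K) : (crit f K).Finite := by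
  by_contra hinf
  have hinf' : (crit f K).Infinite := hinf
  obtain ⟨x, -, hx⟩ := hinf'.exists_accPt_of_subset_isCompact h.cpt (fun c hc => hc.1)
  obtain ⟨z, hz⟩ := deriv_ne h
  have hd : Differentiable ℂ (deriv f) := by
    have := h.entire.contDiff (n := 2)
    exact (this.differentiable_deriv_two)
  have han : AnalyticOnNhd ℂ (deriv f) univ := fun y _ => hd.analyticAt y
  have hfr : ∃ᶠ y in 𝓝[≠] x, deriv f y = 0 := by
    rw [accPt_iff_frequently_nhdsNE] at hx
    exact hx.mono fun y hy => hy.2
  have := han.eqOn_zero_of_preconnected_of_frequently_eq_zero isPreconnected_univ (mem_univ x) hfr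
  exact hz (this (mem_univ z))

end H74F
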