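import Pool.Agent.Lib.H74F.Defs
import Pool.Agent.Lib.H74F.B1
import Pool.Agent.Lib.H74F.B2

/-!
# Chunk B3 (M)
`chains_finite`: a chain has no duplicates (`List.Pairwise.imp` to `List.Nodup`: if `c = c'` then `c ∈ PP f c`, excluded by `not_mem_PP` for critical points; use `List.Pairwise.imp_of_mem`),
so its length is at most the cardinality of the finite set `crit f K` (`List.Nodup.length_le_card`, or `List.toFinset_card_of_nodup` and `Finset.card_le_card`),
and the lists of bounded length over a finite set form a finite set (`List.finite_length_le` over the subtype, mapped by `List.map Subtype.val`, or induction on the length).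
`chain_split`: induction on `l`: for `c :: l'` and `a ∈ PP f c` we have `a ∈ PP f c'` for all `c' ∈ l'` by `PP_nested`: take `l1 = []`; otherwise `c :: l1'`.
Sublists of chains are chains (`List.Pairwise.sublist`).
-/

set_option autoImplicit false

open Set Filter Topology Metric

namespace H74F

theorem B3_len {S : Set ℂ} (hS : S.Finite) (n : ℕ) : {l : List ℂ | (∀ c ∈ l, c ∈ S) ∧ l.length ≤ n}.Finite := by
  have : Finite S := hS
  have h1 := List.finite_length_le S n
  refine (h1.image (List.map Subtype.val)).subset ?_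
  rintro l ⟨hl, hn⟩
  refine ⟨l.attach.map fun x => ⟨x.1, hl x.1 x.2⟩, ?_, ?_⟩
  · show (l.attach.map _).length ≤ n
    rw [List.length_map, List.length_attach]
    exact hn
  · rw [List.map_map]
    show List.map (fun x : {x // x ∈ l} => x.1) l.attach = l
    exact List.attach_map_subtype_val l

theorem chains_finite {f : ℂ → ℂ} {K : Set ℂ} (h : Dy f K) : (chains f K).Finite := by
  classical
  have hc := crit_finite h
  refine (B3_len hc hc.toFinset.card).subset ?_
  rintro l ⟨hl, hp⟩
  refine ⟨hl, ?_⟩
  have hnd : l.Nodup := by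
    refine List.Pairwise.imp_of_mem ?_ hp
    intro a b ha _ hab e
    subst e
    exact not_mem_PP h (hl a ha) hab
  rw [← List.toFinset_card_of_nodup hnd]
  refine Finset.card_le_card fun c hc' => ?_
  rw [List.mem_toFinset] at hc'
  exact hc.mem_toFinset.2 (hl c hc')

theorem chain_split {f : ℂ → ℂ} {K : Set ℂ} (hf : Continuous f) {l : List ℂ} (hl : l ∈ chains f K) (a : ℂ) :
    ∃ l1 l2 : List ℂ, l = l1 ++ l2 ∧ l2 ∈ chains f K ∧ (∀ c ∈ l1, a ∉ PP f c) ∧ ∀ c ∈ l2, a ∈ PP f c := by
  induction l with
  | nil => exact ⟨[], [], rfl, hl, fun c hc => absurd hc List.not_mem_nil, fun c hc => absurd hc List.not_mem_nil⟩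
  | cons c l ih =>
    have hl' : l ∈ chains f K := ⟨fun c' hc' => hl.1 c' (List.mem_cons_of_mem _ hc'), (List.pairwise_cons.1 hl.2).2⟩
    by_cases ha : a ∈ PP f c
    · refine ⟨[], c :: l, rfl, hl, fun c hc => absurd hc List.not_mem_nil, ?_⟩
      intro c' hc'
      rcases List.mem_cons.1 hc' with rfl | hc'
      · exact ha
      · exact PP_nested hf ((List.pairwise_cons.1 hl.2).1 c' hc') ha
    · obtain ⟨l1, l2, h1, h2, h3, h4⟩ := ih hl'
      refine ⟨c :: l1, l2, by rw [h1]; rfl, h2, ?_, h4⟩
      intro c' hc'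
      rcases List.mem_cons.1 hc' with rfl | hc'
      · exact ha
      · exact h3 c' hc'

theorem nil_mem_chains (f : ℂ → ℂ) (K : Set ℂ) : [] ∈ chains f K :=
  ⟨fun _ hc => absurd hc List.not_mem_nil, List.Pairwise.nil⟩

theorem cons_mem_chains {f : ℂ → ℂ} {K : Set ℂ} {l : List ℂ} (hl : l ∈ chains f K) {c : ℂ} (hc : c ∈ crit f K)
    (h : ∀ c' ∈ l, c ∈ PP f c') : c :: l ∈ chains f K := by
  refine ⟨fun c' hc' => ?_, List.pairwise_cons.2 ⟨h, hl.2⟩⟩
  rcases List.mem_cons.1 hc' with rfl | hc'
  · exact hc
  · exact hl.1 c' hc'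

end H74F
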