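import Pool.Agent.Lib.H74F.Defs

/-!
# Chunk B4 (M)
Pure inequalities for `tau`, by induction on the list. `bs_succ`: `bs (j+1) = bs j + bb j` (`ring`); `0 ≤ bb`, `0 ≤ bs ≤ 1` (`bs j < 1`), `bs` monotone, for `d > 1`.
`tau_scale`: `infDist y ≤ t * infDist x` and the exponent is `≤ 0`: `(infDist y)^(-b) ≥ (t * infDist x)^(-b) = t^(-b) (infDist x)^(-b)` (`Real.rpow_le_rpow_of_nonpos`, `Real.mul_rpow`),
then `t^(-bs (j+1)) = t^(-bb j) t^(-bs j)`. `tau_upper` and `tau_drop`: `(infDist x)^(-b) ≤ δ^(-b)`, and for `tau_drop` by induction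
`tau (l1 ++ l2) x ≤ δ^(-(bs (len l1 + len l2) - bs (len l2))) * tau l2 x`, then `δ^(-s) ≤ δ^(-1)` for `s ≤ 1`, `0 < δ ≤ 1`
(`Real.rpow_le_rpow_of_exponent_ge`).
-/

set_option autoImplicit false

open Set Filter Topology Metric

namespace H74F

theorem bs_succ (d : ℝ) (j : ℕ) : bs d (j + 1) = bs d j + bb d j := by
  unfold bs bb
  ring

theorem bb_nonneg {d : ℝ} (hd : 1 < d) (j : ℕ) : 0 ≤ bb d j := by
  unfold bb
  have h1 : d⁻¹ < 1 := inv_lt_one_of_one_lt₀ hd
  have h0 : 0 ≤ d⁻¹ := inv_nonneg.mpr (by linarith)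
  exact mul_nonneg (by linarith) (pow_nonneg h0 j)

theorem bs_nonneg {d : ℝ} (hd : 1 < d) (j : ℕ) : 0 ≤ bs d j := by
  unfold bs
  have h1 : d⁻¹ < 1 := inv_lt_one_of_one_lt₀ hd
  have h0 : 0 ≤ d⁻¹ := inv_nonneg.mpr (by linarith)
  have := pow_le_one₀ (n := j) h0 h1.le
  linarith

theorem bs_lt_one {d : ℝ} (hd : 1 < d) (j : ℕ) : bs d j < 1 := by
  unfold bs
  have h0 : 0 < d⁻¹ := inv_pos.mpr (by linarith)
  have := pow_pos h0 j
  linarith

theorem bs_mono {d : ℝ} (hd : 1 < d) {i j : ℕ} (h : i ≤ j) : bs d i ≤ bs d j := by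
  unfold bs
  have h1 : d⁻¹ < 1 := inv_lt_one_of_one_lt₀ hd
  have h0 : 0 ≤ d⁻¹ := inv_nonneg.mpr (by linarith)
  have := pow_le_pow_of_le_one h0 h1.le h
  linarith

theorem tau_pos {f : ℂ → ℂ} {d : ℝ} {l : List ℂ} {x : ℂ} (h : ∀ c ∈ l, 0 < infDist x (PP f c)) :
    0 < tau f d l x := by
  induction l with
  | nil => simp [tau]
  | cons c l ih =>
    have h1 : 0 < infDist x (PP f c) := h c (by simp)
    have h2 := ih (fun c' hc' => h c' (by simp [hc']))
    rw [tau]
    exact mul_pos (Real.rpow_pos_of_pos h1 _) h2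

theorem tau_scale {f : ℂ → ℂ} {d : ℝ} (hd : 1 < d) {l : List ℂ} {x y : ℂ} {t : ℝ} (ht : 0 < t)
    (h : ∀ c ∈ l, 0 < infDist y (PP f c) ∧ infDist y (PP f c) ≤ t * infDist x (PP f c)) :
    t ^ (-bs d l.length) * tau f d l x ≤ tau f d l y := by
  induction l with
  | nil => simp [tau, bs]
  | cons c l ih =>
    obtain ⟨h1, h2⟩ := h c (by simp)
    have ih' := ih (fun c' hc' => h c' (by simp [hc']))
    have hx : 0 < infDist x (PP f c) := by
      have h3 : 0 < t * infDist x (PP f c) := lt_of_lt_of_le h1 h2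
      exact (pos_iff_pos_of_mul_pos h3).mp ht
    have hxl : 0 < tau f d l x := by
      refine tau_pos (fun c' hc' => ?_)
      obtain ⟨h3, h4⟩ := h c' (by simp [hc'])
      have h5 : 0 < t * infDist x (PP f c') := lt_of_lt_of_le h3 h4
      exact (pos_iff_pos_of_mul_pos h5).mp ht
    have hb := bb_nonneg hd l.length
    have h6 : (t * infDist x (PP f c)) ^ (-bb d l.length) ≤ (infDist y (PP f c)) ^ (-bb d l.length) :=
      Real.rpow_le_rpow_of_nonpos h1 h2 (by linarith)
    rw [Real.mul_rpow ht.le hx.le] at h6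
    have h7 : t ^ (-bs d (l.length + 1)) = t ^ (-bb d l.length) * t ^ (-bs d l.length) := by
      rw [← Real.rpow_add ht, bs_succ]
      congr 1
      ring
    rw [List.length_cons, h7, tau, tau]
    calc t ^ (-bb d l.length) * t ^ (-bs d l.length) * (infDist x (PP f c) ^ (-bb d l.length) * tau f d l x)
        = (t ^ (-bb d l.length) * infDist x (PP f c) ^ (-bb d l.length)) *
            (t ^ (-bs d l.length) * tau f d l x) := by ring
      _ ≤ (infDist y (PP f c)) ^ (-bb d l.length) * tau f d l y := by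
          refine mul_le_mul h6 ih' ?_ ?_
          · exact mul_nonneg (Real.rpow_nonneg ht.le _) hxl.le
          · exact Real.rpow_nonneg h1.le _

theorem tau_upper {f : ℂ → ℂ} {d : ℝ} (hd : 1 < d) {l : List ℂ} {x : ℂ} {δ : ℝ} (hδ : 0 < δ)
    (h : ∀ c ∈ l, δ ≤ infDist x (PP f c)) : tau f d l x ≤ δ ^ (-bs d l.length) := by
  induction l with
  | nil => simp [tau, bs]
  | cons c l ih =>
    have h1 : δ ≤ infDist x (PP f c) := h c (by simp)
    have ih' := ih (fun c' hc' => h c' (by simp [hc']))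
    have hb := bb_nonneg hd l.length
    have h6 : (infDist x (PP f c)) ^ (-bb d l.length) ≤ δ ^ (-bb d l.length) :=
      Real.rpow_le_rpow_of_nonpos hδ h1 (by linarith)
    have hxl : 0 < tau f d l x := by
      refine tau_pos (fun c' hc' => ?_)
      exact lt_of_lt_of_le hδ (h c' (by simp [hc']))
    have h7 : δ ^ (-bs d (l.length + 1)) = δ ^ (-bb d l.length) * δ ^ (-bs d l.length) := by
      rw [← Real.rpow_add hδ, bs_succ]
      congr 1
      ring
    rw [List.length_cons, h7, tau]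
    exact mul_le_mul h6 ih' hxl.le (Real.rpow_nonneg hδ.le _)

theorem tau_drop {f : ℂ → ℂ} {d : ℝ} (hd : 1 < d) {l1 l2 : List ℂ} {x : ℂ} {δ : ℝ} (hδ : 0 < δ) (hδ1 : δ ≤ 1)
    (h : ∀ c ∈ l1, δ ≤ infDist x (PP f c)) (h2 : ∀ c ∈ l2, 0 < infDist x (PP f c)) :
    tau f d (l1 ++ l2) x ≤ δ⁻¹ * tau f d l2 x := by
  have hl2 : 0 < tau f d l2 x := tau_pos h2
  have key : tau f d (l1 ++ l2) x ≤
      δ ^ (-(bs d (l1.length + l2.length) - bs d l2.length)) * tau f d l2 x := by
    induction l1 with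
    | nil => simp
    | cons c l ih =>
      have h1 : δ ≤ infDist x (PP f c) := h c (by simp)
      have ih' := ih (fun c' hc' => h c' (by simp [hc']))
      have hb := bb_nonneg hd (l.length + l2.length)
      have h6 : (infDist x (PP f c)) ^ (-bb d (l.length + l2.length)) ≤
          δ ^ (-bb d (l.length + l2.length)) :=
        Real.rpow_le_rpow_of_nonpos hδ h1 (by linarith)
      have hxl : 0 < tau f d (l ++ l2) x := by
        refine tau_pos (fun c' hc' => ?_)
        rcases List.mem_append.mp hc' with h3 | h3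
        · exact lt_of_lt_of_le hδ (h c' (by simp [h3]))
        · exact h2 c' h3
      have h7 : δ ^ (-(bs d (l.length + l2.length + 1) - bs d l2.length)) =
          δ ^ (-bb d (l.length + l2.length)) *
            δ ^ (-(bs d (l.length + l2.length) - bs d l2.length)) := by
        rw [← Real.rpow_add hδ, bs_succ]
        congr 1
        ring
      have h8 : (c :: l).length + l2.length = l.length + l2.length + 1 := by
        rw [List.length_cons]
        ring
      rw [h8, h7, List.cons_append, tau, List.length_append, mul_assoc]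
      exact mul_le_mul h6 ih' hxl.le (Real.rpow_nonneg hδ.le _)
  refine key.trans ?_
  refine mul_le_mul_of_nonneg_right ?_ hl2.le
  rw [← Real.rpow_neg_one δ]
  refine Real.rpow_le_rpow_of_exponent_ge hδ hδ1 ?_
  have h3 := bs_lt_one hd (l1.length + l2.length)
  have h4 := bs_nonneg hd l2.length
  linarith

end H74F
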