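import Pool.Agent.Lib.H74F.Defs
import Pool.Agent.Lib.H74F.B3
import Pool.Agent.Lib.H74F.B4

/-!
# Chunk B5 (M)
`pos_infDist`: `PP f c` is closed, nonempty, contained in `K` (`c ∈ K`): `IsClosed.notMem_iff_infDist_pos`. `le_sigma`, `exists_sigma`: the set of values is finite (`chains_finite`) and nonempty
(`nil_mem_chains`): `le_csSup`, `Set.Finite.bddAbove`, `Set.Nonempty.csSup_mem`. `one_le_sigma`: the empty chain. `sigma_upper`: take the chain of `exists_sigma`, `infDist x K ≤ infDist x (PP f c)`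
(`infDist_le_infDist_of_subset`), `tau_upper` with `δ = infDist x K`, then `δ^(-bs len) ≤ δ^(-(1-θ))` with `1 - θ = bs d m`, `θ = d⁻¹ ^ m`, `m` a bound for the lengths
(finitely many chains). `θ` is also used in `sigma_len`.
-/

set_option autoImplicit false

open Set Filter Topology Metric

namespace H74F

theorem pos_infDist {f : ℂ → ℂ} {K : Set ℂ} (h : Dy f K) {c x : ℂ} (hc : c ∈ K) (hx : x ∉ K) :
    0 < infDist x (PP f c) := by
  have hne : (PP f c).Nonempty := ⟨f c, map_mem_PP f c⟩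
  have hcl : IsClosed (PP f c) := isClosed_closure
  have hsub : PP f c ⊆ K := PP_sub h.cpt.isClosed h.maps hc
  exact (hcl.notMem_iff_infDist_pos hne).1 (fun hm => hx (hsub hm))

theorem le_sigma {f : ℂ → ℂ} {K : Set ℂ} (h : Dy f K) (d : ℝ) {l : List ℂ} (hl : l ∈ chains f K) (x : ℂ) :
    tau f d l x ≤ sigma f K d x := by
  unfold sigma
  exact le_csSup ((chains_finite h).image _).bddAbove (mem_image_of_mem _ hl)

theorem exists_sigma {f : ℂ → ℂ} {K : Set ℂ} (h : Dy f K) (d : ℝ) (x : ℂ) :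
    ∃ l ∈ chains f K, sigma f K d x = tau f d l x := by
  have hne : ((fun l => tau f d l x) '' chains f K).Nonempty := ⟨_, mem_image_of_mem _ (nil_mem_chains f K)⟩
  obtain ⟨l, hl, he⟩ := hne.csSup_mem ((chains_finite h).image _)
  exact ⟨l, hl, he.symm⟩

theorem one_le_sigma {f : ℂ → ℂ} {K : Set ℂ} (h : Dy f K) (d : ℝ) (x : ℂ) : 1 ≤ sigma f K d x := by
  have h1 := le_sigma h d (nil_mem_chains f K) x
  simpa [tau] using h1

theorem sigma_len {f : ℂ → ℂ} {K : Set ℂ} (h : Dy f K) {d : ℝ} (hd : 1 < d) :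
    ∃ θ : ℝ, 0 < θ ∧ θ ≤ 1 ∧ (∀ l ∈ chains f K, bs d l.length ≤ 1 - θ) ∧
      ∀ x, x ∉ K → infDist x K ≤ 1 → sigma f K d x ≤ (infDist x K) ^ (-(1 - θ)) := by
  obtain ⟨m, hm⟩ := ((chains_finite h).image List.length).bddAbove
  have hlen : ∀ l ∈ chains f K, l.length ≤ m := fun l hl => hm (mem_image_of_mem _ hl)
  have hd0 : 0 < d := by linarith
  have hinv0 : 0 < d⁻¹ := inv_pos.2 hd0
  have hinv1 : d⁻¹ ≤ 1 := inv_le_one_of_one_le₀ hd.le
  have hbs : ∀ l ∈ chains f K, bs d l.length ≤ 1 - d⁻¹ ^ m := by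
    intro l hl
    exact bs_mono hd (hlen l hl)
  refine ⟨d⁻¹ ^ m, pow_pos hinv0 m, pow_le_one₀ hinv0.le hinv1, hbs, ?_⟩
  intro x hx hx1
  have hδ : 0 < infDist x K := (h.cpt.isClosed.notMem_iff_infDist_pos h.ne).1 hx
  obtain ⟨l, hl, he⟩ := exists_sigma h d x
  rw [he]
  have h1 : tau f d l x ≤ (infDist x K) ^ (-bs d l.length) := by
    apply tau_upper hd hδ
    intro c hc
    have hcK : c ∈ K := (hl.1 c hc).1
    exact infDist_le_infDist_of_subset (PP_sub h.cpt.isClosed h.maps hcK) ⟨f c, map_mem_PP f c⟩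
  refine h1.trans ?_
  apply Real.rpow_le_rpow_of_exponent_ge hδ hx1
  have := hbs l hl
  linarith

end H74F
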