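import Pool.Agent.Lib.H74F.Defs
import Pool.Agent.Lib.H74F.B2

/-!
# Chunk B6 (M)
`deriv f` is entire, not identically `0`, so at a critical point `c` it is `(x - c)^e * g x` near `c` with `g` analytic, `g c ≠ 0` (`AnalyticAt.exists_eventuallyEq_pow_smul_nonzero_iff`;
not eventually `0`, else identically `0` by the identity theorem). On a ball `‖g c‖ / 2 ≤ ‖g x‖ ≤ 2 ‖g c‖`: `κ = ‖g c‖ / 2`, `M = max 1 (2 ‖g c‖)`, `r ≤ 1`. For `x, y ∈ closedBall c s`, `s < r`:
`‖deriv f‖ ≤ M s^e` on `closedBall c s`, convex: `Convex.norm_image_sub_le_of_norm_deriv_le`. `exists_d`: `crit f K` is finite, take `d = 2 + sup (e c + 1)`.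
-/

set_option autoImplicit false

open Set Filter Topology Metric

namespace H74F

theorem critEst {f : ℂ → ℂ} {K : Set ℂ} (h : Dy f K) {c : ℂ} (hc : c ∈ crit f K) : ∃ e : ℕ, CritEst f c e := by
  have hdf : Differentiable ℂ (deriv f) := fun z => (h.entire.analyticAt z).deriv.differentiableAt
  have han : AnalyticOnNhd ℂ (deriv f) univ := fun z _ => (h.entire.analyticAt z).deriv
  have hne : ¬ ∀ᶠ z in 𝓝 c, deriv f z = 0 := by
    intro h0
    obtain ⟨z, hz⟩ := deriv_ne h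
    have h1 : deriv f = fun _ => 0 := han.eq_of_eventuallyEq (fun z _ => analyticAt_const) h0
    exact hz (by rw [h1])
  obtain ⟨e, g, hg, hgc, hfg⟩ := (AnalyticAt.exists_eventuallyEq_pow_smul_nonzero_iff (h.entire.analyticAt c).deriv).2 hne
  have hgpos : 0 < ‖g c‖ := norm_pos_iff.2 hgc
  have hcont : ContinuousAt (fun z => ‖g z‖) c := hg.continuousAt.norm
  have h1 : ∀ᶠ z in 𝓝 c, ‖g c‖ / 2 < ‖g z‖ := hcont.eventually_const_lt (by linarith)
  have h2 : ∀ᶠ z in 𝓝 c, ‖g z‖ < 2 * ‖g c‖ := hcont.eventually_lt_const (by linarith)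
  obtain ⟨r, hr, hball⟩ := Metric.eventually_nhds_iff.1 (hfg.and (h1.and h2))
  refine ⟨e, ‖g c‖ / 2, max 1 (2 * ‖g c‖), min r 1, by linarith, le_max_left _ _, lt_min hr one_pos, min_le_right _ _, ?_, ?_⟩
  · intro x hx
    obtain ⟨h3, h4, -⟩ := hball (lt_of_lt_of_le hx (min_le_left _ _))
    rw [h3, norm_smul, norm_pow, ← dist_eq_norm, mul_comm]
    exact mul_le_mul_of_nonneg_left h4.le (pow_nonneg dist_nonneg _)
  · intro x y s hs hx hy
    have hb : ∀ z ∈ closedBall c s, ‖deriv f z‖ ≤ max 1 (2 * ‖g c‖) * s ^ e := by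
      intro z hz
      rw [mem_closedBall] at hz
      obtain ⟨h3, -, h4⟩ := hball (lt_of_le_of_lt hz (lt_of_lt_of_le hs (min_le_left _ _)))
      rw [h3, norm_smul, norm_pow, ← dist_eq_norm, mul_comm]
      exact mul_le_mul (h4.le.trans (le_max_right _ _)) (pow_le_pow_left₀ dist_nonneg hz _) (pow_nonneg dist_nonneg _)
        (le_trans zero_le_one (le_max_left _ _))
    rw [dist_comm, dist_eq_norm, dist_comm x y, dist_eq_norm]
    exact (convex_closedBall c s).norm_image_sub_le_of_norm_deriv_le (fun z _ => h.entire z) hb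
      (mem_closedBall.2 hx) (mem_closedBall.2 hy)

theorem exists_d {f : ℂ → ℂ} {K : Set ℂ} (h : Dy f K) : ∃ d : ℝ, DOK f K d := by
  classical
  have hfin := crit_finite h
  choose! e he using fun c (hc : c ∈ crit f K) => critEst h hc
  have hsum : ∀ c ∈ crit f K, ((e c : ℝ) + 1) ≤ ∑ c ∈ hfin.toFinset, ((e c : ℝ) + 1) := fun c hc =>
    Finset.single_le_sum (f := fun c => (e c : ℝ) + 1) (fun i _ => by positivity) (hfin.mem_toFinset.2 hc)
  have hnn : 0 ≤ ∑ c ∈ hfin.toFinset, ((e c : ℝ) + 1) := Finset.sum_nonneg fun i _ => by positivity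
  refine ⟨2 + ∑ c ∈ hfin.toFinset, ((e c : ℝ) + 1), by linarith, fun c hc => ⟨e c, ?_, he c hc⟩⟩
  have := hsum c hc
  linarith

end H74F
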