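import Pool.Agent.Lib.H74F.Defs
import Pool.Agent.Lib.H74F.B5

/-!
# Chunk C2 (L)
The estimate at a critical point `c`, which is the reason for the exponents. `crit f K` is finite; `δ ∈ (0, 1]` with `2 δ ≤ infDist c (PP f c')` for the `c' ∈ crit f K` with `c ∉ PP f c'`
(closed nonempty sets). Take `r' ≤ min (r/2) δ`, `y` with `s := dist y c < r'`, `y ∉ K` (so `0 < s`). Let `l` be a chain with `sigma y = tau l y`, `l = l1 ++ l2` from `chain_split` with `a = c`.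
`δ ≤ infDist y (PP f c')` for `c' ∈ l1`, so `tau l y ≤ δ⁻¹ tau l2 y` (`tau_drop`). `c :: l2` is a chain. Let `j = l2.length`.
For `c' ∈ l2`: a nearest point `y' ∈ PP f c'` of `y` (`IsCompact.exists_infDist_eq_dist`) has `dist y y' ≤ s`, `dist y' c ≤ 2 s`, so by `CritEst` with `2 s`:
`infDist (f y) (PP f c') ≤ dist (f y) (f y') ≤ M (2 s)^e infDist y (PP f c')` (`f y' ∈ PP f c'`). And `infDist (f y) (PP f c) ≤ dist (f y) (f c) ≤ M s^e s` (`f c ∈ PP f c`).
With `t = M 2^e s^e`, `tau_scale`: `tau (c :: l2) (f y) ≥ (t s)^(-bb j) * t^(-bs j) * tau l2 y`, and `‖deriv f y‖ ≥ κ s^e`. Now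
`(t s)^(-bb j) t^(-bs j) s^e = (M 2^e)^(-bs (j+1)) * s^(e - e bs j - (e+1) bb j)`; the first factor is `≥ (M 2^e)⁻¹`, the exponent of `s` is `d⁻¹^j ((e+1)/d - 1) ≤ 0` because `e + 1 ≤ d`,
and `s ≤ 1`, so the second factor is `≥ 1`. Hence `GG 1 y = sigma (f y) ‖deriv f y‖ / sigma y ≥ κ (M 2^e)⁻¹ δ =: m0`.
-/

set_option autoImplicit false

open Set Filter Topology Metric

namespace H74F

theorem h74fc2_unif {S : Set ℂ} (hS : S.Finite) (g : ℂ → ℝ) (hg : ∀ c ∈ S, 0 < g c) :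
    ∃ δ : ℝ, 0 < δ ∧ δ ≤ 1 ∧ ∀ c ∈ S, 2 * δ ≤ g c := by
  induction S, hS using Set.Finite.induction_on with
  | empty => exact ⟨1, one_pos, le_rfl, fun c hc => absurd hc (by simp)⟩
  | @insert a s _ _ ih =>
    obtain ⟨δ, h0, h1, h2⟩ := ih fun c hc => hg c (Set.mem_insert_of_mem _ hc)
    have ha : 0 < g a := hg a (Set.mem_insert _ _)
    refine ⟨min δ (g a / 2), lt_min h0 (by positivity), (min_le_left _ _).trans h1, fun c hc => ?_⟩
    rcases Set.mem_insert_iff.1 hc with rfl | hc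
    · have := min_le_right δ (g c / 2)
      linarith
    · have := min_le_left δ (g a / 2)
      have := h2 c hc
      linarith

theorem h74fc2_exp {d A s : ℝ} (hd : 1 < d) (hA : 1 ≤ A) (hs : 0 < s) (hs1 : s ≤ 1) {e : ℕ} (he : (e : ℝ) + 1 ≤ d)
    (j : ℕ) : A⁻¹ ≤ ((A * s ^ e) * s) ^ (-bb d j) * (A * s ^ e) ^ (-bs d j) * s ^ e := by
  have hA0 : 0 < A := by linarith
  have hd0 : 0 < d := by linarith
  have hse : 0 < s ^ e := pow_pos hs e
  have ht0 : 0 < A * s ^ e := mul_pos hA0 hse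
  have h1 : ((A * s ^ e) * s) ^ (-bb d j) * (A * s ^ e) ^ (-bs d j) * s ^ e =
      A ^ (-bs d (j + 1)) * s ^ ((e : ℝ) * (-bs d (j + 1)) + (-bb d j) + e) := by
    rw [Real.mul_rpow ht0.le hs.le]
    have h2 : (A * s ^ e) ^ (-bb d j) * (A * s ^ e) ^ (-bs d j) = (A * s ^ e) ^ (-bs d (j + 1)) := by
      rw [← Real.rpow_add ht0, bs_succ]
      congr 1
      ring
    have h3 : (A * s ^ e) ^ (-bs d (j + 1)) = A ^ (-bs d (j + 1)) * s ^ ((e : ℝ) * (-bs d (j + 1))) := by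
      rw [Real.mul_rpow hA0.le hse.le, ← Real.rpow_natCast, ← Real.rpow_mul hs.le]
    calc (A * s ^ e) ^ (-bb d j) * s ^ (-bb d j) * (A * s ^ e) ^ (-bs d j) * s ^ e
        = ((A * s ^ e) ^ (-bb d j) * (A * s ^ e) ^ (-bs d j)) * (s ^ (-bb d j) * s ^ e) := by ring
      _ = A ^ (-bs d (j + 1)) * (s ^ ((e : ℝ) * (-bs d (j + 1))) * s ^ (-bb d j) * s ^ (e : ℝ)) := by
          rw [h2, h3, Real.rpow_natCast]; ring
      _ = _ := by rw [← Real.rpow_add hs, ← Real.rpow_add hs]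
  rw [h1]
  have hexp : (e : ℝ) * (-bs d (j + 1)) + (-bb d j) + e ≤ 0 := by
    have h4 : (e : ℝ) * (-bs d (j + 1)) + (-bb d j) + e = d⁻¹ ^ j * (((e : ℝ) + 1) * d⁻¹ - 1) := by
      unfold bs bb
      rw [pow_succ]
      ring
    rw [h4]
    have h5 : ((e : ℝ) + 1) * d⁻¹ ≤ 1 := by
      rw [← div_eq_mul_inv, div_le_one hd0]
      exact he
    exact mul_nonpos_of_nonneg_of_nonpos (pow_nonneg (inv_nonneg.2 hd0.le) j) (by linarith)
  have h6 : 1 ≤ s ^ ((e : ℝ) * (-bs d (j + 1)) + (-bb d j) + e) :=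
    Real.one_le_rpow_of_pos_of_le_one_of_nonpos hs hs1 hexp
  have h7 : A⁻¹ ≤ A ^ (-bs d (j + 1)) := by
    rw [← Real.rpow_neg_one A]
    apply Real.rpow_le_rpow_of_exponent_le hA
    have := bs_lt_one hd (j + 1)
    linarith
  calc A⁻¹ ≤ A ^ (-bs d (j + 1)) * 1 := by rw [mul_one]; exact h7
    _ ≤ _ := mul_le_mul_of_nonneg_left h6 (Real.rpow_nonneg hA0.le _)

theorem near_crit {f : ℂ → ℂ} {K : Set ℂ} (h : Dy f K) {d : ℝ} (hd : 1 < d) {c : ℂ} (hc : c ∈ crit f K) {e : ℕ}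
    (he : (e : ℝ) + 1 ≤ d) (hce : CritEst f c e) :
    ∃ m0 : ℝ, 0 < m0 ∧ ∃ r : ℝ, 0 < r ∧ ∀ y, dist y c < r → y ∉ K → f y ∉ K → m0 ≤ GG f K d 1 y := by
  obtain ⟨κ, M, r0, hκ, hM, hr0, hr1, hlow, hlip⟩ := hce
  have hcl : ∀ c, IsClosed (PP f c) := fun c => isClosed_closure
  have hne : ∀ c, (PP f c).Nonempty := fun c => ⟨f c, map_mem_PP f c⟩
  have hcont : Continuous f := h.entire.continuous
  obtain ⟨δ0, hδ0, hδ1, hδc⟩ := h74fc2_unif (S := {c' | c' ∈ crit f K ∧ c ∉ PP f c'})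
    ((crit_finite h).subset fun c' hc' => hc'.1) (fun c' => infDist c (PP f c'))
    (fun c' hc' => ((hcl c').notMem_iff_infDist_pos (hne c')).1 hc'.2)
  have hA : 1 ≤ M * (2 : ℝ) ^ e := by
    have h1 : (1 : ℝ) ≤ 2 ^ e := one_le_pow₀ (by norm_num)
    nlinarith
  set A : ℝ := M * (2 : ℝ) ^ e with hAd
  have hA0 : 0 < A := by linarith
  refine ⟨κ * A⁻¹ * δ0, by positivity, min (r0 / 2) δ0, lt_min (by positivity) hδ0, fun y hy hyK hfyK => ?_⟩
  have hy1 : dist y c < r0 / 2 := lt_of_lt_of_le hy (min_le_left _ _)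
  have hy2 : dist y c < δ0 := lt_of_lt_of_le hy (min_le_right _ _)
  set s : ℝ := dist y c with hs
  have hs0 : 0 < s := by
    rw [hs]
    refine dist_pos.2 ?_
    rintro rfl
    exact hyK hc.1
  have hs1 : s ≤ 1 := by linarith
  obtain ⟨l, hl, hσ⟩ := exists_sigma h d y
  obtain ⟨l1, l2, rfl, hl2, ha1, ha2⟩ := chain_split hcont hl c
  have hcl2 : c :: l2 ∈ chains f K := cons_mem_chains hl2 hc ha2
  have hdrop : tau f d (l1 ++ l2) y ≤ δ0⁻¹ * tau f d l2 y := by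
    refine tau_drop hd hδ0 hδ1 (fun c' hc' => ?_) (fun c' hc' => ?_)
    · have h1 := hδc c' ⟨hl.1 c' (List.mem_append.2 (Or.inl hc')), ha1 c' hc'⟩
      have h2 : infDist c (PP f c') ≤ infDist y (PP f c') + dist c y := infDist_le_infDist_add_dist
      rw [dist_comm] at h2
      linarith
    · exact pos_infDist h (hl2.1 c' hc').1 hyK
  have hse : 0 < s ^ e := pow_pos hs0 e
  set t : ℝ := A * s ^ e with ht
  have ht0 : 0 < t := mul_pos hA0 hse
  have h2s : M * (2 * s) ^ e = t := by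
    rw [ht, hAd, mul_pow]; ring
  have hscale : t ^ (-bs d l2.length) * tau f d l2 y ≤ tau f d l2 (f y) := by
    refine tau_scale hd ht0 fun c' hc' => ⟨pos_infDist h (hl2.1 c' hc').1 hfyK, ?_⟩
    have hcK : c' ∈ K := (hl2.1 c' hc').1
    have hcomp : IsCompact (PP f c') :=
      h.cpt.of_isClosed_subset (hcl c') (PP_sub h.cpt.isClosed h.maps hcK)
    obtain ⟨y', hy', hdy⟩ := hcomp.exists_infDist_eq_dist (hne c') y
    have h1 : dist y y' ≤ s := by
      rw [← hdy]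
      exact infDist_le_dist_of_mem (ha2 c' hc')
    have h2 : dist y' c ≤ 2 * s := by
      have h3 := dist_triangle y' y c
      rw [dist_comm y' y] at h3
      linarith
    have h4 : f y' ∈ PP f c' := PP_maps hcont c' hy'
    calc infDist (f y) (PP f c') ≤ dist (f y) (f y') := infDist_le_dist_of_mem h4
      _ ≤ M * (2 * s) ^ e * dist y y' := hlip y y' (2 * s) (by linarith) (by linarith) h2
      _ = t * infDist y (PP f c') := by rw [h2s, hdy]
  have hc0 : infDist (f y) (PP f c) ≤ t * s := by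
    have h1 : dist (f y) (f c) ≤ M * s ^ e * dist y c :=
      hlip y c s (by linarith) le_rfl (by rw [dist_self]; exact hs0.le)
    have h2 : M * s ^ e ≤ t := by
      rw [ht, hAd]
      have h3 : (1 : ℝ) ≤ 2 ^ e := one_le_pow₀ (by norm_num)
      have h4 : M * s ^ e * 1 ≤ M * s ^ e * 2 ^ e :=
        mul_le_mul_of_nonneg_left h3 (mul_nonneg (by linarith) hse.le)
      calc M * s ^ e = M * s ^ e * 1 := by ring
        _ ≤ M * s ^ e * 2 ^ e := h4
        _ = M * 2 ^ e * s ^ e := by ring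
    calc infDist (f y) (PP f c) ≤ dist (f y) (f c) := infDist_le_dist_of_mem (map_mem_PP f c)
      _ ≤ M * s ^ e * dist y c := h1
      _ ≤ t * s := mul_le_mul_of_nonneg_right h2 hs0.le
  have hc1 : (t * s) ^ (-bb d l2.length) ≤ (infDist (f y) (PP f c)) ^ (-bb d l2.length) :=
    Real.rpow_le_rpow_of_nonpos (pos_infDist h hc.1 hfyK) hc0 (by have := bb_nonneg hd l2.length; linarith)
  have hpos2 : 0 < tau f d l2 y := tau_pos fun c' hc' => pos_infDist h (hl2.1 c' hc').1 hyK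
  have hσ1 : 1 ≤ sigma f K d y := one_le_sigma h d y
  have hσ0 : 0 < sigma f K d y := by linarith
  have h5 : δ0 * sigma f K d y ≤ tau f d l2 y := by
    rw [hσ]
    calc δ0 * tau f d (l1 ++ l2) y ≤ δ0 * (δ0⁻¹ * tau f d l2 y) := mul_le_mul_of_nonneg_left hdrop hδ0.le
      _ = tau f d l2 y := by rw [← mul_assoc, mul_inv_cancel₀ hδ0.ne', one_mul]
  have hX : 0 ≤ (t * s) ^ (-bb d l2.length) := Real.rpow_nonneg (by positivity) _
  have hY : 0 ≤ t ^ (-bs d l2.length) := Real.rpow_nonneg ht0.le _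
  have h7 : (t * s) ^ (-bb d l2.length) * (t ^ (-bs d l2.length) * (δ0 * sigma f K d y)) ≤ sigma f K d (f y) := by
    calc (t * s) ^ (-bb d l2.length) * (t ^ (-bs d l2.length) * (δ0 * sigma f K d y))
        ≤ (t * s) ^ (-bb d l2.length) * (t ^ (-bs d l2.length) * tau f d l2 y) :=
          mul_le_mul_of_nonneg_left (mul_le_mul_of_nonneg_left h5 hY) hX
      _ ≤ (t * s) ^ (-bb d l2.length) * tau f d l2 (f y) := mul_le_mul_of_nonneg_left hscale hX
      _ ≤ (infDist (f y) (PP f c)) ^ (-bb d l2.length) * tau f d l2 (f y) :=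
          mul_le_mul_of_nonneg_right hc1 (le_trans (mul_nonneg hY hpos2.le) hscale)
      _ = tau f d (c :: l2) (f y) := rfl
      _ ≤ sigma f K d (f y) := le_sigma h d hcl2 _
  have h8 : κ * s ^ e ≤ ‖deriv f y‖ := hlow y (by linarith)
  have h9 := h74fc2_exp hd hA hs0 hs1 he l2.length
  rw [← ht] at h9
  unfold GG
  rw [Function.iterate_one, le_div_iff₀ hσ0]
  calc κ * A⁻¹ * δ0 * sigma f K d y = A⁻¹ * (κ * (δ0 * sigma f K d y)) := by ring
    _ ≤ ((t * s) ^ (-bb d l2.length) * t ^ (-bs d l2.length) * s ^ e) * (κ * (δ0 * sigma f K d y)) :=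
        mul_le_mul_of_nonneg_right h9 (by positivity)
    _ = (t * s) ^ (-bb d l2.length) * (t ^ (-bs d l2.length) * (δ0 * sigma f K d y)) * (κ * s ^ e) := by ring
    _ ≤ sigma f K d (f y) * ‖deriv f y‖ := by
        refine mul_le_mul h7 h8 (by positivity) ?_
        have := one_le_sigma h d (f y)
        linarith

end H74F
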