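import Pool.Agent.Lib.H74F.Defs
import Pool.Agent.Lib.H74F.C3

/-!
# Chunk D1 (S)
`near_point` gives `δ, θ`; `hrec` gives `n` with `Λ = ‖deriv f^[n] a‖` larger than `1` and so large that `δ Λ (2 Λ)^(-(1-θ)) = δ 2^(-(1-θ)) Λ^θ ≥ 2` (`Real.rpow` calculus; `Λ ≥ (2 ^ (2 - θ) / δ)^(1/θ)`;
or: `tendsto_rpow_atTop`). `n ≠ 0` because `‖deriv f^[0] a‖ = 1`. Then `Good` holds with `N = n`.
-/

set_option autoImplicit false

open Set Filter Topology Metric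

namespace H74F

theorem rec_good {f : ℂ → ℂ} {K : Set ℂ} (h : Dy f K) {d : ℝ} (hd : 1 < d) {a : ℂ} (ha : a ∈ K) (hr : Rec f a) :
    Good f K d a := by
  obtain ⟨δ, θ, hδ, hθ, hnp⟩ := near_point h hd ha
  have ht : Tendsto (fun x : ℝ => x ^ θ) atTop atTop := tendsto_rpow_atTop hθ
  obtain ⟨C0, hC0⟩ := eventually_atTop.1 (ht.eventually_ge_atTop (4 / δ))
  obtain ⟨n, hn⟩ := h.hrec a ha hr (max 1 C0)
  have h1 : 1 < ‖deriv f^[n] a‖ := lt_of_le_of_lt (le_max_left _ _) hn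
  have h2 : C0 < ‖deriv f^[n] a‖ := lt_of_le_of_lt (le_max_right _ _) hn
  set Λ : ℝ := ‖deriv f^[n] a‖ with hΛ
  have hΛ0 : 0 < Λ := by linarith
  have hn0 : n ≠ 0 := by
    rintro rfl
    have : deriv f^[0] a = 1 := by
      rw [Function.iterate_zero]
      exact deriv_id a
    rw [hΛ, this] at h1
    simp at h1
  obtain ⟨r, hr0, hrr⟩ := hnp n hΛ0
  refine ⟨n, r, hr0, fun y hy => ⟨n, Nat.one_le_iff_ne_zero.2 hn0, le_refl n, fun hK => ?_⟩⟩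
  have hy0 : y ∉ K := hK 0 (Nat.zero_le n)
  have hyn : f^[n] y ∉ K := hK n (le_refl n)
  refine le_trans ?_ (hrr y hy hy0 hyn)
  have hmax : max 1 (2 * Λ) = 2 * Λ := max_eq_right (by linarith)
  rw [hmax]
  have h2Λ : 0 < 2 * Λ := by linarith
  have hsplit : (2 * Λ) ^ θ = (2 * Λ) * (2 * Λ) ^ (-(1 - θ)) := by
    rw [← Real.rpow_one_add' h2Λ.le (by intro hh; linarith)]
    congr 1
    ring
  have hbig : 4 / δ ≤ (2 * Λ) ^ θ := hC0 (2 * Λ) (by linarith)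
  rw [div_le_iff₀ hδ] at hbig
  have : δ * Λ * (2 * Λ) ^ (-(1 - θ)) = ((2 * Λ) ^ θ * δ) / 2 := by
    rw [hsplit]; ring
  rw [this]
  linarith

end H74F
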