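import Pool.Agent.Lib.H74F.Defs

/-!
# Chunk D2 (M)
`good_open`: if `x` is good with `N, r` then every `x'` with `dist x' x < r/2` is good with `N, r/2`. `block`: cover the compact set `A` by finitely many balls of radius `r x / 2`, `N` the maximum of the `N x`,
`η` the minimum of the `r x / 2` (`A` nonempty: a point `x' ∈ A` with `dist y x' < η`, `infDist_lt_iff`).
-/

set_option autoImplicit false

open Set Filter Topology Metric

namespace H74F

theorem good_open (f : ℂ → ℂ) (K : Set ℂ) (d : ℝ) : IsOpen {x | Good f K d x} := by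
  rw [Metric.isOpen_iff]
  rintro x ⟨N, r, hr, h⟩
  refine ⟨r / 2, by linarith, ?_⟩
  intro x' hx'
  rw [Metric.mem_ball] at hx'
  refine ⟨N, r / 2, by linarith, ?_⟩
  intro y hy
  apply h y
  calc dist y x ≤ dist y x' + dist x' x := dist_triangle _ _ _
    _ < r := by linarith

theorem block {f : ℂ → ℂ} {K : Set ℂ} {d : ℝ} {A : Set ℂ} (hA : IsCompact A) (hne : A.Nonempty)
    (hg : ∀ x ∈ A, Good f K d x) :
    ∃ N : ℕ, ∃ η : ℝ, 0 < η ∧ ∀ y, infDist y A < η →
      ∃ n : ℕ, 1 ≤ n ∧ n ≤ N ∧ ((∀ i ≤ n, f^[i] y ∉ K) → 2 ≤ GG f K d n y) := by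
  have hg' : ∀ x : A, ∃ N : ℕ, ∃ r : ℝ, 0 < r ∧ ∀ y, dist y (x : ℂ) < r →
      ∃ n : ℕ, 1 ≤ n ∧ n ≤ N ∧ ((∀ i ≤ n, f^[i] y ∉ K) → 2 ≤ GG f K d n y) :=
    fun x => hg x x.2
  choose N r hr h using hg'
  obtain ⟨t, ht⟩ := hA.elim_finite_subcover (fun x : A => Metric.ball (x : ℂ) (r x / 2))
    (fun x => Metric.isOpen_ball) (by
      intro x hx
      rw [Set.mem_iUnion]
      exact ⟨⟨x, hx⟩, Metric.mem_ball_self (by have := hr ⟨x, hx⟩; linarith)⟩)
  have htne : t.Nonempty := by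
    obtain ⟨x, hx⟩ := hne
    have := ht hx
    rw [Set.mem_iUnion₂] at this
    obtain ⟨i, hi, _⟩ := this
    exact ⟨i, hi⟩
  obtain ⟨m, hm, hmin⟩ := t.exists_min_image r htne
  refine ⟨t.sup N, r m / 2, by have := hr m; linarith, ?_⟩
  intro y hy
  obtain ⟨x', hx', hyx'⟩ := (Metric.infDist_lt_iff hne).1 hy
  have := ht hx'
  rw [Set.mem_iUnion₂] at this
  obtain ⟨i, hi, hix⟩ := this
  rw [Metric.mem_ball] at hix
  have h1 : dist y (i : ℂ) < r i := by
    have h2 := hmin i hi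
    calc dist y (i : ℂ) ≤ dist y x' + dist x' i := dist_triangle _ _ _
      _ < r i := by linarith
  obtain ⟨n, hn1, hn2, hn3⟩ := h i y h1
  exact ⟨n, hn1, hn2.trans (Finset.le_sup hi), hn3⟩

end H74F
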