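import Pool.Agent.Lib.H74F.Defs

/-!
# Chunk D3 (M)
Omega limit sets in a compact invariant set `K` (`f` continuous). Closed: `isClosed_setOf_clusterPt`. Contained in `K`: the orbit is in the closed set `K` (`MapClusterPt` and `mem_of_isClosed`-type lemma,
`IsClosed.mem_of_mapClusterPt`?). Nonempty: `IsCompact.exists_mapClusterPt`. Invariant: `MapClusterPt.continuousAt_comp`/`tendsto_comp` and shift of the sequence: `f (f^[n] x) = f^[n+1] x`. `omega_dist`: otherwise frequently
`ε ≤ infDist (f^[n] x) Ω`; on the compact set `K ∩ {infDist · Ω ≥ ε}` the subsequence has a cluster point, which is in `Ω`, contradiction.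
-/

set_option autoImplicit false

open Set Filter Topology Metric

namespace H74F

private theorem D3_orbit_mem {f : ℂ → ℂ} {K : Set ℂ} (hm : MapsTo f K K) {x : ℂ} (hx : x ∈ K) (n : ℕ) :
    f^[n] x ∈ K := hm.iterate n hx

private theorem D3_omega_closed (f : ℂ → ℂ) (x : ℂ) :
    IsClosed {a | MapClusterPt a atTop (fun n : ℕ => f^[n] x)} :=
  isClosed_setOf_clusterPt

theorem omega_sub {f : ℂ → ℂ} {A : Set ℂ} (hA : IsClosed A) (hm : MapsTo f A A) {x : ℂ} (hx : x ∈ A) :
    {a | MapClusterPt a atTop (fun n : ℕ => f^[n] x)} ⊆ A := by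
  intro a ha
  have h1 : ClusterPt a (𝓟 A) := by
    refine ClusterPt.mono ha ?_
    rw [le_principal_iff, mem_map]
    exact Eventually.of_forall fun n => D3_orbit_mem hm hx n
  exact hA.closure_subset (mem_closure_iff_clusterPt.2 h1)

theorem omega_compact {f : ℂ → ℂ} {K : Set ℂ} (hK : IsCompact K) (hm : MapsTo f K K) {x : ℂ} (hx : x ∈ K) :
    IsCompact {a | MapClusterPt a atTop (fun n : ℕ => f^[n] x)} :=
  hK.of_isClosed_subset (D3_omega_closed f x) (omega_sub hK.isClosed hm hx)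

theorem omega_nonempty {f : ℂ → ℂ} {K : Set ℂ} (hK : IsCompact K) (hm : MapsTo f K K) {x : ℂ} (hx : x ∈ K) :
    {a | MapClusterPt a atTop (fun n : ℕ => f^[n] x)}.Nonempty := by
  have h1 : ∃ᶠ n in atTop, f^[n] x ∈ K :=
    (Eventually.of_forall fun n => D3_orbit_mem hm hx n).frequently
  obtain ⟨a, -, ha⟩ := hK.exists_mapClusterPt_of_frequently h1
  exact ⟨a, ha⟩

theorem omega_maps {f : ℂ → ℂ} (hf : Continuous f) (x : ℂ) :
    MapsTo f {a | MapClusterPt a atTop (fun n : ℕ => f^[n] x)} {a | MapClusterPt a atTop (fun n : ℕ => f^[n] x)} := by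
  intro a ha
  have h1 : MapClusterPt (f a) atTop (f ∘ fun n : ℕ => f^[n] x) :=
    MapClusterPt.continuousAt_comp hf.continuousAt ha
  have h2 : (f ∘ fun n : ℕ => f^[n] x) = (fun n : ℕ => f^[n] x) ∘ (fun n => n + 1) := by
    funext n
    simp only [Function.comp_apply, Function.iterate_succ_apply']
  rw [h2] at h1
  exact MapClusterPt.of_comp (tendsto_add_atTop_nat 1) h1

theorem omega_dist {f : ℂ → ℂ} {K : Set ℂ} (hK : IsCompact K) (hm : MapsTo f K K) {x : ℂ} (hx : x ∈ K)
    {ε : ℝ} (hε : 0 < ε) :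
    ∃ N : ℕ, ∀ n ≥ N, infDist (f^[n] x) {a | MapClusterPt a atTop (fun n : ℕ => f^[n] x)} < ε := by
  by_contra hcon
  set Ω := {a | MapClusterPt a atTop (fun n : ℕ => f^[n] x)} with hΩ
  have h1 : ∃ᶠ n in atTop, f^[n] x ∈ K ∩ {y | ε ≤ infDist y Ω} := by
    rw [frequently_atTop]
    intro N
    push_neg at hcon
    obtain ⟨n, hn, h⟩ := hcon N
    exact ⟨n, hn, D3_orbit_mem hm hx n, h⟩
  have hc : IsCompact (K ∩ {y | ε ≤ infDist y Ω}) :=
    hK.inter_right (isClosed_le continuous_const (continuous_infDist_pt Ω))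
  obtain ⟨a, ha, ha'⟩ := hc.exists_mapClusterPt_of_frequently h1
  have h2 : infDist a Ω = 0 := infDist_zero_of_mem (by rw [hΩ]; exact ha')
  have h3 : ε ≤ infDist a Ω := ha.2
  linarith

end H74F
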