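import Pool.Agent.Lib.H74F.Defs
import Pool.Agent.Lib.H74F.C1
import Pool.Agent.Lib.H74F.D2
import Pool.Agent.Lib.H74F.D3

/-!
# Chunk D4 (L)
Let `Ω` be the omega limit set of `x` (compact, nonempty). `block` for `Ω`: `N, η1`. `omega_dist`: `i0` with `infDist (f^[i] x) Ω < η1/2` for `i ≥ i0`. `k` with `2 ≤ m0^i0 * 2^k`. `T := i0 + k * N + 1`. By continuity of the
iterates there is `r > 0` with `dist (f^[i] y) (f^[i] x) < min (η/2) (η1/2)` for all `i ≤ T` if `dist y x < r`. `Good` with `T, r`: if some `f^[i] y ∈ K`, `i ≤ T`, take `n = T` (the premise is false; `T ≥ 1`). Otherwise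
claim for `j ≤ k`: there is `n` with `i0 ≤ n ≤ i0 + j * N`, `j ≤ n`, and `m0^i0 * 2^j ≤ GG n y`. `j = 0`: `n = i0`, `GG_pow` (`infDist (f^[i] y) K ≤ dist (f^[i] y) (f^[i] x) < η`). Step: `f^[n] y` is within `η1` of `Ω`, so
`block` gives `n'`, and `GG (n + n') y = GG n y * GG n' (f^[n] y) ≥ 2 m0^i0 2^j` (`GG_add`, `f^[i] (f^[n] y) = f^[i+n] y`). For `j = k` the value is `≥ 2`; if this `n` is `0` then (`i0 = 0`, `k = 0`) `2 ≤ 1`, impossible, so `1 ≤ n`.
-/

set_option autoImplicit false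

open Set Filter Topology Metric

namespace H74F

theorem omega_good {f : ℂ → ℂ} {K : Set ℂ} (h : Dy f K) {d m0 η : ℝ} (hm0 : 0 < m0) (hη : 0 < η)
    (hlow : ∀ y, infDist y K < η → y ∉ K → f y ∉ K → m0 ≤ GG f K d 1 y) {x : ℂ} (hx : x ∈ K)
    (hg : ∀ a, MapClusterPt a atTop (fun n : ℕ => f^[n] x) → Good f K d a) : Good f K d x := by
  obtain ⟨N, η1, hη1, hblock⟩ := block (f := f) (K := K) (d := d) (omega_compact h.cpt h.maps hx)
    (omega_nonempty h.cpt h.maps hx) (fun a ha => hg a ha)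
  obtain ⟨i0, hi0⟩ := omega_dist h.cpt h.maps hx (half_pos hη1)
  have hm : 0 < m0 ^ i0 := pow_pos hm0 i0
  obtain ⟨k, hk⟩ := pow_unbounded_of_one_lt (2 / m0 ^ i0) (one_lt_two)
  have hk2 : 2 ≤ m0 ^ i0 * 2 ^ k := by
    rw [div_lt_iff₀ hm] at hk
    linarith
  have hε : 0 < min η (η1 / 2) := lt_min hη (half_pos hη1)
  have hev : ∀ᶠ y in 𝓝 x, ∀ i ∈ Finset.range (i0 + k * N + 1 + 1), dist (f^[i] y) (f^[i] x) < min η (η1 / 2) := by
    rw [Filter.eventually_all_finset]
    intro i _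
    exact Metric.tendsto_nhds.1 ((h.entire.continuous.iterate i).continuousAt) _ hε
  obtain ⟨r, hr, hb⟩ := Metric.eventually_nhds_iff.1 hev
  refine ⟨i0 + k * N + 1, r, hr, fun y hy => ?_⟩
  have hclose : ∀ i ≤ i0 + k * N + 1, dist (f^[i] y) (f^[i] x) < min η (η1 / 2) := fun i hi =>
    hb hy i (Finset.mem_range.2 (Nat.lt_succ_of_le hi))
  by_cases hK : ∀ i ≤ i0 + k * N + 1, f^[i] y ∉ K
  swap
  · exact ⟨i0 + k * N + 1, Nat.le_add_left 1 _, le_rfl, fun hh => absurd hh hK⟩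
  have hclaim : ∀ j ≤ k, ∃ n, i0 ≤ n ∧ n ≤ i0 + j * N ∧ m0 ^ i0 * 2 ^ j ≤ GG f K d n y := by
    intro j
    induction j with
    | zero =>
      intro _
      refine ⟨i0, le_rfl, by simp, ?_⟩
      rw [pow_zero, mul_one]
      refine GG_pow h hm0 hlow (fun i hi => ?_) (fun i hi => hK i (by omega))
      have h1 : f^[i] x ∈ K := h.maps.iterate i hx
      exact lt_of_le_of_lt (infDist_le_dist_of_mem h1)
        (lt_of_lt_of_le (hclose i (by omega)) (min_le_left _ _))
    | succ j ih =>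
      intro hj
      obtain ⟨n, hn1, hn2, hn3⟩ := ih (by omega)
      have hjk : j * N + N ≤ k * N := by
        have h1 : (j + 1) * N ≤ k * N := Nat.mul_le_mul_right N hj
        linarith [Nat.add_mul j 1 N]
      have hnT : n ≤ i0 + k * N + 1 := by omega
      have h2 : infDist (f^[n] y) {a | MapClusterPt a atTop (fun n : ℕ => f^[n] x)} < η1 := by
        have h3 : infDist (f^[n] y) {a | MapClusterPt a atTop (fun n : ℕ => f^[n] x)} ≤
            infDist (f^[n] x) {a | MapClusterPt a atTop (fun n : ℕ => f^[n] x)} + dist (f^[n] y) (f^[n] x) :=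
          infDist_le_infDist_add_dist
        have h4 := hi0 n hn1
        have h5 := lt_of_lt_of_le (hclose n hnT) (min_le_right _ _)
        linarith
      obtain ⟨n', hn1', hn2', hn3'⟩ := hblock _ h2
      have h6 : 2 ≤ GG f K d n' (f^[n] y) := by
        refine hn3' fun i hi => ?_
        rw [← Function.iterate_add_apply]
        exact hK _ (by omega)
      refine ⟨n + n', by omega, ?_, ?_⟩
      · rw [Nat.add_mul, Nat.one_mul]
        omega
      · rw [GG_add h]
        calc m0 ^ i0 * 2 ^ (j + 1) = (m0 ^ i0 * 2 ^ j) * 2 := by ring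
          _ ≤ GG f K d n y * GG f K d n' (f^[n] y) :=
            mul_le_mul hn3 h6 (by norm_num) (GG_nonneg h d n y)
  obtain ⟨n, hn1, hn2, hn3⟩ := hclaim k le_rfl
  refine ⟨n, ?_, by omega, fun _ => hk2.trans hn3⟩
  rcases Nat.eq_zero_or_pos n with h0 | h0
  · exfalso
    rw [h0, GG_zero h] at hn3
    linarith
  · exact h0

end H74F
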