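import Pool.Agent.Lib.H74F.Defs
import Pool.Agent.Lib.H74F.C4
import Pool.Agent.Lib.H74F.D1
import Pool.Agent.Lib.H74F.D2
import Pool.Agent.Lib.H74F.D3
import Pool.Agent.Lib.H74F.D4

/-!
# Chunk D5 (M)
Suppose `x0 ∈ K` is not good. The family `S` of the closed sets `A ⊆ K` with `MapsTo f A A` which contain a point that is not good is nonempty (`K`). Every chain in `S` has a lower bound: the intersection (for the
empty chain take `K`); it is closed, invariant, and contains a point that is not good because the sets `A ∩ {x | ¬ Good x}` are compact (`good_open`), nonempty and directed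
(`IsCompact.nonempty_sInter_of_directedOn_...` or `IsCompact.nonempty_iInter_of_directed_nonempty_isCompact_isClosed`). `zorn_superset_nonempty` (or `zorn_superset`) gives a minimal `A`. Let `x ∈ A` be not good. By
`omega_good` (with `lower`) the omega limit set `Ω ⊆ A` of `x` contains a point which is not good, so `Ω ∈ S` and `Ω = A ∋ x`: `x` is recurrent, so good by `rec_good`: contradiction.
-/

set_option autoImplicit false

open Set Filter Topology Metric

namespace H74F

theorem all_good {f : ℂ → ℂ} {K : Set ℂ} (h : Dy f K) {d : ℝ} (hd : DOK f K d) : ∀ x ∈ K, Good f K d x := by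
  by_contra hcon
  push Not at hcon
  obtain ⟨x0, hx0, hng⟩ := hcon
  obtain ⟨m0, hm0, -, η, hη, hlow⟩ := lower h hd
  have hfc : Continuous f := h.entire.continuous
  have hbc : IsClosed {x | ¬ Good f K d x} := (good_open f K d).isClosed_compl
  obtain ⟨S, hS⟩ : ∃ S : Set (Set ℂ), S = {A | IsClosed A ∧ A ⊆ K ∧ MapsTo f A A ∧ ∃ x ∈ A, ¬ Good f K d x} :=
    ⟨_, rfl⟩
  have memS : ∀ A, A ∈ S ↔ IsClosed A ∧ A ⊆ K ∧ MapsTo f A A ∧ ∃ x ∈ A, ¬ Good f K d x := fun A => by
    rw [hS]
    exact Iff.rfl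
  have hKS : K ∈ S := (memS K).2 ⟨h.cpt.isClosed, subset_rfl, h.maps, x0, hx0, hng⟩
  obtain ⟨A, hAK, hAmin⟩ := zorn_superset_nonempty S (by
    intro c hc hch hcne
    refine ⟨⋂₀ c, (memS _).2 ⟨?_, ?_, ?_, ?_⟩, fun s hs => sInter_subset_of_mem hs⟩
    · exact isClosed_sInter fun s hs => ((memS s).1 (hc hs)).1
    · obtain ⟨s, hs⟩ := hcne
      exact (sInter_subset_of_mem hs).trans ((memS s).1 (hc hs)).2.1
    · intro x hx
      rw [mem_sInter] at hx ⊢
      exact fun s hs => ((memS s).1 (hc hs)).2.2.1 (hx s hs)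
    · have hne : Nonempty c := hcne.to_subtype
      have key := IsCompact.nonempty_iInter_of_directed_nonempty_isCompact_isClosed
        (fun s : c => (s : Set ℂ) ∩ {x | ¬ Good f K d x}) (by
          intro s t
          rcases hch.total s.2 t.2 with hst | hst
          · exact ⟨s, subset_rfl, inter_subset_inter_left _ hst⟩
          · exact ⟨t, inter_subset_inter_left _ hst, subset_rfl⟩)
        (fun s => by
          obtain ⟨x, hx, hb⟩ := ((memS _).1 (hc s.2)).2.2.2
          exact ⟨x, hx, hb⟩)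
        (fun s => (h.cpt.of_isClosed_subset ((memS _).1 (hc s.2)).1 ((memS _).1 (hc s.2)).2.1).inter_right hbc)
        (fun s => ((memS _).1 (hc s.2)).1.inter hbc)
      obtain ⟨x, hx⟩ := key
      rw [mem_iInter] at hx
      refine ⟨x, mem_sInter.2 fun s hs => (hx ⟨s, hs⟩).1, ?_⟩
      obtain ⟨s, hs⟩ := hcne
      exact (hx ⟨s, hs⟩).2) K hKS
  obtain ⟨hAc, -, hAm, x, hxA, hxb⟩ := (memS A).1 hAmin.prop
  have hxK : x ∈ K := hAK hxA
  obtain ⟨a, ha, hab⟩ : ∃ a, MapClusterPt a atTop (fun n : ℕ => f^[n] x) ∧ ¬ Good f K d a := by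
    by_contra hcon
    push Not at hcon
    exact hxb (omega_good h hm0 hη hlow hxK hcon)
  have hΩ : {a | MapClusterPt a atTop (fun n : ℕ => f^[n] x)} ∈ S :=
    (memS _).2 ⟨(omega_compact h.cpt h.maps hxK).isClosed, omega_sub h.cpt.isClosed h.maps hxK,
      omega_maps hfc x, a, ha, hab⟩
  have hsub := hAmin.le_of_le hΩ (omega_sub hAc hAm hxA)
  exact hxb (rec_good h hd.1 hxK (hsub hxA))

end H74F
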