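import Pool.Agent.Lib.H74F.Defs
import Pool.Agent.Lib.H74F.C1
import Pool.Agent.Lib.H74F.D2
import Pool.Agent.Lib.H74F.D5

/-!
# Chunk D6 (M)
`block` for `A = K`: `N, η`. For such `y` claim: for every `j` there is `n ≥ j` with `2^j ≤ GG n y` (induction as in D4: `GG_add`, the block at `f^[n] y`). Given `C, N'` take `j ≥ N'` with `C ≤ 2^j`.
-/

set_option autoImplicit false

open Set Filter Topology Metric

namespace H74F

theorem growth {f : ℂ → ℂ} {K : Set ℂ} (h : Dy f K) {d : ℝ} (hd : DOK f K d) :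
    ∃ η : ℝ, 0 < η ∧ ∀ y, (∀ i, infDist (f^[i] y) K < η) → (∀ i, f^[i] y ∉ K) →
      ∀ (C : ℝ) (N : ℕ), ∃ n ≥ N, C ≤ GG f K d n y := by
  obtain ⟨N, η, hη, hb⟩ := block h.cpt h.ne (all_good h hd)
  refine ⟨η, hη, fun y hy hyK C N' => ?_⟩
  have key : ∀ j : ℕ, ∃ n ≥ j, (2 : ℝ) ^ j ≤ GG f K d n y := by
    intro j
    induction j with
    | zero => exact ⟨0, le_rfl, by rw [GG_zero h, pow_zero]⟩
    | succ j ih =>
      obtain ⟨n, hn, hG⟩ := ih
      obtain ⟨m, hm1, _, hm⟩ := hb (f^[n] y) (hy n)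
      have hm' := hm (fun i _ => by
        rw [← Function.iterate_add_apply]
        exact hyK (i + n))
      refine ⟨n + m, by omega, ?_⟩
      rw [GG_add h, pow_succ]
      exact mul_le_mul hG hm' (by norm_num) (le_trans (by positivity) hG)
  obtain ⟨j, hj⟩ := ((tendsto_pow_atTop_atTop_of_one_lt (one_lt_two : (1 : ℝ) < 2)).eventually_ge_atTop C).exists
  obtain ⟨n, hn, hG⟩ := key (max j N')
  refine ⟨n, le_trans (le_max_right _ _) hn, le_trans hj (le_trans ?_ hG)⟩
  exact pow_le_pow_right₀ one_le_two (le_max_left _ _)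

end H74F
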