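import Mathlib

/-!
# H74F: bounded infinite sets of constant limit functions (MP_5e504b_an). Definitions

`f` entire, `D` a Fatou component, `L(D)` the set of constant limit functions. See PROOF.md.
-/

set_option autoImplicit false

open Set Filter Topology Metric

namespace H74F

/-- `F k → c` locally uniformly on `D`, for a constant `c ∈ ℂ ∪ {∞}`. -/
def TendsConst (F : ℕ → ℂ → ℂ) (c : OnePoint ℂ) (D : Set ℂ) : Prop :=
  ∀ V ∈ 𝓝 c, ∀ z ∈ D, ∃ t ∈ 𝓝[D] z, ∀ᶠ k in atTop, ∀ y ∈ t, ((F k y : ℂ) : OnePoint ℂ) ∈ V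

/-- The iterates of `f` form a normal family on `U`: every subsequence has a subsequence which
converges locally uniformly on `U` to a holomorphic function or to the constant `∞`. -/
def NormalOn (f : ℂ → ℂ) (U : Set ℂ) : Prop :=
  ∀ n : ℕ → ℕ, StrictMono n → ∃ φ : ℕ → ℕ, StrictMono φ ∧
    ((∃ g : ℂ → ℂ, DifferentiableOn ℂ g U ∧
        TendstoLocallyUniformlyOn (fun k => f^[n (φ k)]) g atTop U) ∨
      TendsConst (fun k => f^[n (φ k)]) OnePoint.infty U)

/-- The Fatou set. -/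
def fatouSet (f : ℂ → ℂ) : Set ℂ := {z | ∃ U : Set ℂ, IsOpen U ∧ z ∈ U ∧ NormalOn f U}

/-- `D` is a connected component of the Fatou set. -/
def IsFatouComponent (f : ℂ → ℂ) (D : Set ℂ) : Prop :=
  ∃ z ∈ fatouSet f, D = connectedComponentIn (fatouSet f) z

/-- The set `L(D)` of constant limit functions. -/
def limitConstants (f : ℂ → ℂ) (D : Set ℂ) : Set (OnePoint ℂ) :=
  {c | ∃ n : ℕ → ℕ, StrictMono n ∧ TendsConst (fun k => f^[n k]) c D}

/-- The finite part of `L(D)`. -/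
def KK (f : ℂ → ℂ) (D : Set ℂ) : Set ℂ := {a | (a : OnePoint ℂ) ∈ limitConstants f D}

/-- The hypotheses on `D`. -/
structure Wd (f : ℂ → ℂ) (D : Set ℂ) (R : ℝ) : Prop where
  entire : Differentiable ℂ f
  opn : IsOpen D
  conn : IsPreconnected D
  ne : D.Nonempty
  normal : NormalOn f D
  inf : (limitConstants f D).Infinite
  bdd : limitConstants f D ⊆ (fun z : ℂ => (z : OnePoint ℂ)) '' closedBall 0 R

/-- `a` is a recurrent point: a limit point of its own orbit. -/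
def Rec (f : ℂ → ℂ) (a : ℂ) : Prop := MapClusterPt a atTop (fun n : ℕ => f^[n] a)

/-- The hypotheses for the second half (the dynamics on a compact invariant set `K`). -/
structure Dy (f : ℂ → ℂ) (K : Set ℂ) : Prop where
  entire : Differentiable ℂ f
  cpt : IsCompact K
  maps : MapsTo f K K
  ne : K.Nonempty
  hrec : ∀ a ∈ K, Rec f a → ∀ C : ℝ, ∃ n : ℕ, C < ‖deriv f^[n] a‖

/-- The closure of the forward orbit of `f c`. -/
def PP (f : ℂ → ℂ) (c : ℂ) : Set ℂ := closure (range fun k : ℕ => f^[k + 1] c)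

/-- The critical points in `K`. -/
def crit (f : ℂ → ℂ) (K : Set ℂ) : Set ℂ := {c | c ∈ K ∧ deriv f c = 0}

/-- The exponents `bb j = (1 - 1/d) / d ^ j`. -/
noncomputable def bb (d : ℝ) (j : ℕ) : ℝ := (1 - d⁻¹) * d⁻¹ ^ j

/-- The partial sums `bs j = 1 - 1 / d ^ j` of the exponents. -/
noncomputable def bs (d : ℝ) (j : ℕ) : ℝ := 1 - d⁻¹ ^ j

/-- The weight of a chain (the smallest element, with the smallest `PP`, first). -/
noncomputable def tau (f : ℂ → ℂ) (d : ℝ) : List ℂ → ℂ → ℝ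
  | [], _ => 1
  | c :: l, x => (infDist x (PP f c)) ^ (-bb d l.length) * tau f d l x

/-- Chains of critical points: for every later element `c'` the earlier ones lie in `PP f c'`. -/
def chains (f : ℂ → ℂ) (K : Set ℂ) : Set (List ℂ) :=
  {l | (∀ c ∈ l, c ∈ crit f K) ∧ l.Pairwise (fun c c' => c ∈ PP f c')}

/-- The singular metric: the maximum of the weights over all chains. -/
noncomputable def sigma (f : ℂ → ℂ) (K : Set ℂ) (d : ℝ) (x : ℂ) : ℝ :=
  sSup ((fun l => tau f d l x) '' chains f K)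

/-- The derivative of `f^[n]` in the singular metric. -/
noncomputable def GG (f : ℂ → ℂ) (K : Set ℂ) (d : ℝ) (n : ℕ) (y : ℂ) : ℝ :=
  sigma f K d (f^[n] y) * ‖deriv f^[n] y‖ / sigma f K d y

/-- Local estimates at a critical point `c` (with `e` the order of the zero of `f'`). -/
def CritEst (f : ℂ → ℂ) (c : ℂ) (e : ℕ) : Prop :=
  ∃ κ M r : ℝ, 0 < κ ∧ 1 ≤ M ∧ 0 < r ∧ r ≤ 1 ∧
    (∀ x, dist x c < r → κ * dist x c ^ e ≤ ‖deriv f x‖) ∧
    ∀ (x y : ℂ) (s : ℝ), s < r → dist x c ≤ s → dist y c ≤ s →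
      dist (f x) (f y) ≤ M * s ^ e * dist x y

/-- The condition on `d`. -/
def DOK (f : ℂ → ℂ) (K : Set ℂ) (d : ℝ) : Prop :=
  1 < d ∧ ∀ c ∈ crit f K, ∃ e : ℕ, (e : ℝ) + 1 ≤ d ∧ CritEst f c e

/-- `x` is good: near `x` the derivative in the singular metric is at least `2` after at most `N` steps. -/
def Good (f : ℂ → ℂ) (K : Set ℂ) (d : ℝ) (x : ℂ) : Prop :=
  ∃ N : ℕ, ∃ r : ℝ, 0 < r ∧ ∀ y, dist y x < r →
    ∃ n : ℕ, 1 ≤ n ∧ n ≤ N ∧ ((∀ i ≤ n, f^[i] y ∉ K) → 2 ≤ GG f K d n y)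

end H74F
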