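import Pool.Agent.Lib.H74F.Defs

/-!
# Chunk E1 (M)
Harnack. `g` has a logarithm on the ball: `deriv g / g` is holomorphic on the ball and has a primitive `h` (`DifferentiableOn.isExactOn_ball`), `exp (-h) * g` has derivative `0`, so it is constant; adjust the constant:
`exp (h w) = g w`, `h` differentiable on the ball (or `Complex.exists_continuousOn_eqOn_exp_comp`). `(h w).re = log ‖g w‖ < 0`. Put `u = -(h z).re = log (1 / ‖g z‖) > 0`. The map
`k w = (h w - h z) / (h w + conj (h z))` maps the ball into the unit ball (`‖a - b‖ < ‖a + conj b‖` if `a.re, b.re < 0`), `k z = 0`, and by Schwarz (`Complex.norm_deriv_le_div_of_mapsTo_ball`) `‖deriv k z‖ ≤ 1 / ρ`; `deriv k z =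
deriv h z / (2 (h z).re)`. So `‖deriv h z‖ ≤ 2 u / ρ`, and `deriv g z = deriv h z * g z`. (Alternative: Borel-Carathéodory style lemmas in Mathlib.)
-/

set_option autoImplicit false

open Set Filter Topology Metric

namespace H74F

theorem deriv_bound {g : ℂ → ℂ} {z : ℂ} {ρ : ℝ} (hρ : 0 < ρ) (hg : DifferentiableOn ℂ g (ball z ρ))
    (h0 : ∀ w ∈ ball z ρ, g w ≠ 0) (h1 : ∀ w ∈ ball z ρ, ‖g w‖ < 1) :
    ‖deriv g z‖ ≤ 2 / ρ * ‖g z‖ * Real.log (1 / ‖g z‖) := by
  have hz : z ∈ ball z ρ := mem_ball_self hρ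
  have hgd : ∀ w ∈ ball z ρ, HasDerivAt g (deriv g w) w := fun w hw =>
    (hg.differentiableAt (isOpen_ball.mem_nhds hw)).hasDerivAt
  have hq : DifferentiableOn ℂ (fun w => deriv g w / g w) (ball z ρ) := (hg.deriv isOpen_ball).div hg h0
  obtain ⟨h, hhz, hh⟩ := hq.isExactOn_ball.with_val_at z (Complex.log (g z))
  have hF : ∀ w ∈ ball z ρ, HasDerivAt (fun w => Complex.exp (-h w) * g w) 0 w := by
    intro w hw
    have h1 := ((hh w hw).neg.cexp).mul (hgd w hw)
    refine h1.congr_deriv ?_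
    have h2 := h0 w hw
    have h3 : deriv g w / g w * g w = deriv g w := div_mul_cancel₀ _ h2
    linear_combination (-Complex.exp (-h w)) * h3
  have hexp : ∀ w ∈ ball z ρ, g w = Complex.exp (h w) := by
    intro w hw
    have h1 : Complex.exp (-h w) * g w = Complex.exp (-h z) * g z :=
      isOpen_ball.is_const_of_deriv_eq_zero (convex_ball z ρ).isPreconnected
        (fun x hx => (hF x hx).differentiableAt.differentiableWithinAt) (fun x hx => (hF x hx).deriv) hw hz
    rw [hhz, Complex.exp_neg (Complex.log (g z)), Complex.exp_log (h0 z hz), inv_mul_cancel₀ (h0 z hz)] at h1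
    rw [Complex.exp_neg, inv_mul_eq_one₀ (Complex.exp_ne_zero _)] at h1
    exact h1.symm
  have hnorm : ∀ w ∈ ball z ρ, ‖g w‖ = Real.exp (h w).re := fun w hw => by
    rw [hexp w hw, Complex.norm_exp]
  have hre : ∀ w ∈ ball z ρ, (h w).re < 0 := by
    intro w hw
    have h2 := h1 w hw
    rw [hnorm w hw, ← Real.exp_zero] at h2
    exact Real.exp_lt_exp.1 h2
  obtain ⟨a, ha⟩ : ∃ a, a = h z := ⟨_, rfl⟩
  have hare : a.re < 0 := by rw [ha]; exact hre z hz
  have hden : ∀ w ∈ ball z ρ, h w + (starRingEnd ℂ) a ≠ 0 := by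
    intro w hw h2
    have h3 := congrArg Complex.re h2
    rw [Complex.add_re, Complex.conj_re, Complex.zero_re] at h3
    have := hre w hw
    linarith
  obtain ⟨k, hk⟩ : ∃ k : ℂ → ℂ, k = fun w => (h w - a) / (h w + (starRingEnd ℂ) a) := ⟨_, rfl⟩
  have hkz : k z = 0 := by
    rw [hk]
    show (h z - a) / (h z + (starRingEnd ℂ) a) = 0
    rw [ha, sub_self, zero_div]
  have hkd : ∀ w ∈ ball z ρ, HasDerivAt k ((deriv g w / g w * (h w + (starRingEnd ℂ) a) -
      (h w - a) * (deriv g w / g w)) / (h w + (starRingEnd ℂ) a) ^ 2) w := by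
    intro w hw
    rw [hk]
    exact ((hh w hw).sub_const a).div ((hh w hw).add_const _) (hden w hw)
  have hmaps : MapsTo k (ball z ρ) (closedBall (k z) 1) := by
    intro w hw
    rw [hkz, mem_closedBall, dist_zero_right, hk]
    show ‖(h w - a) / (h w + (starRingEnd ℂ) a)‖ ≤ 1
    rw [norm_div]
    refine div_le_one_of_le₀ ?_ (norm_nonneg _)
    refine abs_le_of_sq_le_sq' ?_ (norm_nonneg _) |>.2
    rw [Complex.sq_norm, Complex.sq_norm, Complex.normSq_apply, Complex.normSq_apply, Complex.sub_re, Complex.sub_im,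
      Complex.add_re, Complex.add_im, Complex.conj_re, Complex.conj_im]
    have h3 := mul_pos_of_neg_of_neg (hre w hw) hare
    nlinarith
  have hS := Complex.norm_deriv_le_div_of_mapsTo_ball (fun w hw => (hkd w hw).differentiableAt.differentiableWithinAt) hmaps hρ
  rw [(hkd z hz).deriv, ← ha, sub_self, zero_mul, sub_zero, Complex.add_conj] at hS
  have hu : 0 < -(2 * a.re) := by linarith
  have h5 : ((2 * a.re : ℝ) : ℂ) ≠ 0 := by
    rw [Ne, Complex.ofReal_eq_zero]
    linarith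
  have h6 : deriv g z / g z * ((2 * a.re : ℝ) : ℂ) / ((2 * a.re : ℝ) : ℂ) ^ 2 = deriv g z / g z / ((2 * a.re : ℝ) : ℂ) := by
    field_simp
  rw [h6, norm_div, Complex.norm_real, Real.norm_eq_abs, abs_of_neg (by linarith), norm_div, div_le_iff₀ hu,
    div_le_iff₀ (norm_pos_iff.2 (h0 z hz))] at hS
  have h7 : Real.log (1 / ‖g z‖) = -a.re := by
    rw [one_div, Real.log_inv, hnorm z hz, Real.log_exp, ha]
  rw [h7]
  refine hS.trans (le_of_eq ?_)
  ring

theorem log_bound {θ : ℝ} (hθ : 0 < θ) : ∃ C : ℝ, ∀ δ : ℝ, 0 < δ → δ ≤ 1 → δ ^ θ * Real.log (1 / δ) ≤ C := by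
  refine ⟨1 / θ, fun δ hδ hδ1 => ?_⟩
  have h1 := Real.log_le_rpow_div (x := 1 / δ) (by positivity) hθ
  have h2 : δ ^ θ * Real.log (1 / δ) ≤ δ ^ θ * ((1 / δ) ^ θ / θ) :=
    mul_le_mul_of_nonneg_left h1 (Real.rpow_nonneg hδ.le _)
  refine h2.trans (le_of_eq ?_)
  rw [mul_div_assoc', ← Real.mul_rpow hδ.le (by positivity), mul_one_div_cancel hδ.ne', Real.one_rpow]

end H74F
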