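import Pool.Agent.Lib.H74F.Defs
import Pool.Agent.Lib.H74F.A8
import Pool.Agent.Lib.H74F.A10
import Pool.Agent.Lib.H74F.A11
import Pool.Agent.Lib.H74F.B5
import Pool.Agent.Lib.H74F.E1

/-!
# Chunk E2 (M)
The upper bound. `z ∈ D`, `ρ` and the uniform convergence from `unif`, `K = KK f D`. Take `N` from `unif` for `ε = 1/2`... Let `q` be a natural number; we bound `deriv f^[n] (f^[q] z)`. The point `w0 = f^[q] z` lies in the open set `f^[q] '' ball z ρ`
(open mapping theorem; `f^[q]` is not constant as in A8), so `ball w0 ρ' ⊆ f^[q] '' ball z ρ` for some `ρ' > 0`. For `n` large (`n + q ≥ N`, `N` from `unif` with `ε = 1/4`): every `w ∈ ball w0 ρ'` is `f^[q] v`, `v ∈ ball z ρ`,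
`f^[n] w = f^[n+q] v`, so `f^[n] w ∉ K` (`KK_disj`), and `dist (f^[n] w) (f^[n] w0) < 1/4`, `infDist (f^[n] w0) K < 1/4`. Let `a ∈ K` be the nearest point of `f^[n] w0` (`K` compact), `δ = dist (f^[n] w0) a = infDist (f^[n] w0) K > 0`. Then `g = f^[n] - a` satisfies
`g ≠ 0`, `‖g‖ < 1` on the ball, and `deriv_bound` gives `‖deriv f^[n] w0‖ ≤ (2/ρ') δ log (1/δ)`. With `sigma (f^[n] w0) ≤ δ^(-(1-θ))` (`sigma_len`), `sigma w0 ≥ 1` and `log_bound`: `GG f K d n w0 ≤ (2/ρ') δ^θ log (1/δ) ≤ (2/ρ') C`.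
-/

set_option autoImplicit false

open Set Filter Topology Metric

namespace H74F

private theorem upper_nonconst {f : ℂ → ℂ} {D : Set ℂ} {R : ℝ} (h : Wd f D R) {z : ℂ} (hz : z ∈ D) (q : ℕ)
    {ρ : ℝ} (hρ : 0 < ρ) : ∃ ρ' : ℝ, 0 < ρ' ∧ ball (f^[q] z) ρ' ⊆ f^[q] '' ball z ρ := by
  have hd : Differentiable ℂ f^[q] := h.entire.iterate q
  have han : AnalyticOnNhd ℂ f^[q] univ := hd.differentiableOn.analyticOnNhd isOpen_univ
  rcases han.is_constant_or_isOpen isPreconnected_univ with ⟨w, hw⟩ | ho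
  · exfalso
    refine disjoint_left.mp (disj h (Nat.lt_succ_self q)) (mem_image_of_mem _ hz) ⟨z, hz, ?_⟩
    rw [Function.iterate_succ_apply, hw _ (mem_univ _), hw _ (mem_univ _)]
  · have h1 : IsOpen (f^[q] '' ball z ρ) := ho _ (subset_univ _) isOpen_ball
    have h2 : f^[q] '' ball z ρ ∈ 𝓝 (f^[q] z) := h1.mem_nhds (mem_image_of_mem _ (mem_ball_self hρ))
    obtain ⟨ρ', hρ', hs⟩ := Metric.mem_nhds_iff.mp h2
    exact ⟨ρ', hρ', hs⟩

theorem upper {f : ℂ → ℂ} {D : Set ℂ} {R : ℝ} (h : Wd f D R) (h' : Dy f (KK f D)) {d : ℝ} (hd : 1 < d)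
    {z : ℂ} (hz : z ∈ D) (q : ℕ) :
    ∃ (C : ℝ) (N : ℕ), ∀ n ≥ N, GG f (KK f D) d n (f^[q] z) ≤ C := by
  obtain ⟨ρ, hρ, hball, hu⟩ := unif h hz
  obtain ⟨ρ', hρ', hs⟩ := upper_nonconst h hz q hρ
  obtain ⟨θ, hθ, -, -, hsig⟩ := sigma_len h' hd
  obtain ⟨C, hC⟩ := log_bound hθ
  obtain ⟨N, hN⟩ := hu (1 / 4) (by norm_num)
  refine ⟨2 / ρ' * C, N, fun n hn => ?_⟩
  have hit : ∀ v, f^[n] (f^[q] v) = f^[n + q] v := fun v => (Function.iterate_add_apply f n q v).symm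
  have hnK : ∀ v ∈ D, f^[n + q] v ∉ KK f D := fun v hv hK =>
    disjoint_left.mp (KK_disj h (n + q)) (mem_image_of_mem _ hv) hK
  obtain ⟨a, haK, ha⟩ := h'.cpt.exists_infDist_eq_dist h'.ne (f^[n] (f^[q] z))
  have hδ : 0 < infDist (f^[n] (f^[q] z)) (KK f D) := by
    rw [← h'.cpt.isClosed.notMem_iff_infDist_pos h'.ne, hit]
    exact hnK z hz
  have hnq : N ≤ n + q := le_trans hn (Nat.le_add_right n q)
  have hz' : z ∈ closedBall z ρ := mem_closedBall_self hρ.le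
  have hδ4 : infDist (f^[n] (f^[q] z)) (KK f D) < 1 / 4 := by
    rw [hit]
    exact (hN (n + q) hnq z hz').1
  have hdiff : Differentiable ℂ f^[n] := h.entire.iterate n
  have hb := deriv_bound (g := fun w => f^[n] w - a) (z := f^[q] z) hρ'
    ((hdiff.sub_const a).differentiableOn) (by
      intro w hw h0
      obtain ⟨v, hv, rfl⟩ := hs hw
      have hvD : v ∈ D := hball (ball_subset_closedBall hv)
      rw [hit, sub_eq_zero] at h0
      exact hnK v hvD (h0 ▸ haK)) (by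
      intro w hw
      obtain ⟨v, hv, rfl⟩ := hs hw
      have h1 := (hN (n + q) hnq v (ball_subset_closedBall hv)).2
      rw [← dist_eq_norm, hit]
      have h2 : dist (f^[n + q] z) a < 1 / 4 := by
        rw [← hit, ← ha]
        exact hδ4
      have h3 := dist_triangle (f^[n + q] v) (f^[n + q] z) a
      linarith)
  have hg : ‖f^[n] (f^[q] z) - a‖ = infDist (f^[n] (f^[q] z)) (KK f D) := by
    rw [ha, dist_eq_norm]
  have hder : deriv (fun w => f^[n] w - a) (f^[q] z) = deriv f^[n] (f^[q] z) := by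
    rw [deriv_sub_const]
  rw [hder, hg] at hb
  set δ := infDist (f^[n] (f^[q] z)) (KK f D) with hδdef
  have hsg := hsig (f^[n] (f^[q] z)) (by rw [hit]; exact hnK z hz) (by linarith)
  rw [← hδdef] at hsg
  have h1 : 1 ≤ sigma f (KK f D) d (f^[q] z) := one_le_sigma h' d _
  have h2 : 0 ≤ sigma f (KK f D) d (f^[n] (f^[q] z)) := le_trans zero_le_one (one_le_sigma h' d _)
  have h3 : GG f (KK f D) d n (f^[q] z) ≤ sigma f (KK f D) d (f^[n] (f^[q] z)) * ‖deriv f^[n] (f^[q] z)‖ :=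
    div_le_self (mul_nonneg h2 (norm_nonneg _)) h1
  have h4 : sigma f (KK f D) d (f^[n] (f^[q] z)) * ‖deriv f^[n] (f^[q] z)‖ ≤
      δ ^ (-(1 - θ)) * (2 / ρ' * δ * Real.log (1 / δ)) :=
    mul_le_mul hsg hb (norm_nonneg _) (Real.rpow_nonneg hδ.le _)
  have h5 : δ ^ (-(1 - θ)) * δ = δ ^ θ := by
    nth_rewrite 2 [← Real.rpow_one δ]
    rw [← Real.rpow_add hδ]
    congr 1
    ring
  have h6 : δ ^ (-(1 - θ)) * (2 / ρ' * δ * Real.log (1 / δ)) = 2 / ρ' * (δ ^ θ * Real.log (1 / δ)) := by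
    rw [← h5]
    ring
  have h7 : 2 / ρ' * (δ ^ θ * Real.log (1 / δ)) ≤ 2 / ρ' * C :=
    mul_le_mul_of_nonneg_left (hC δ hδ (by linarith)) (by positivity)
  linarith

end H74F
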