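import Pool.Agent.Lib.H74F.Defs
import Pool.Agent.Lib.H74F.B6
import Pool.Agent.Lib.H74F.D6
import Pool.Agent.Lib.H74F.E2

/-!
# Chunk F1 (S)
Suppose there is no such `a`. Then `Dy f (KK f D)` holds (`KK_compact`, `KK_maps`, `KK_infinite` gives nonempty). `d` from `exists_d`, `η` from `growth`, `z ∈ D`, `unif` with `ε = η`: `N`, `q := N`, `y := f^[q] z`: `infDist (f^[i] y) K < η`
and `f^[i] y ∉ K` (`KK_disj`). `upper` gives `C, N'` with `GG n y ≤ C` for `n ≥ N'`, `growth` gives `n ≥ N'` with `C + 1 ≤ GG n y`: contradiction.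
-/

set_option autoImplicit false

open Set Filter Topology Metric

namespace H74F

theorem main1 {f : ℂ → ℂ} {D : Set ℂ} {R : ℝ} (h : Wd f D R) :
    ∃ a ∈ KK f D, Rec f a ∧ ∃ C : ℝ, ∀ n : ℕ, ‖deriv f^[n] a‖ ≤ C := by
  by_contra hcon
  have hd : Dy f (KK f D) :=
    { entire := h.entire
      cpt := KK_compact h
      maps := KK_maps h
      ne := (KK_infinite h).nonempty
      hrec := by
        intro a ha hr C
        by_contra h1
        refine hcon ⟨a, ha, hr, C, fun n => ?_⟩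
        by_contra h2
        exact h1 ⟨n, not_le.1 h2⟩ }
  obtain ⟨d, hdok⟩ := exists_d hd
  obtain ⟨η, hη, hgr⟩ := growth hd hdok
  obtain ⟨z, hz⟩ := h.ne
  obtain ⟨ρ, hρ, hball, hu⟩ := unif h hz
  obtain ⟨N, hN⟩ := hu η hη
  obtain ⟨C, N', hC⟩ := upper h hd hdok.1 hz N
  have h1 : ∀ i, infDist (f^[i] (f^[N] z)) (KK f D) < η := by
    intro i
    rw [← Function.iterate_add_apply]
    exact (hN (i + N) (Nat.le_add_left N i) z (mem_closedBall_self hρ.le)).1
  have h2 : ∀ i, f^[i] (f^[N] z) ∉ KK f D := by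
    intro i hi
    rw [← Function.iterate_add_apply] at hi
    exact Set.disjoint_left.1 (KK_disj h (i + N)) ⟨z, hz, rfl⟩ hi
  obtain ⟨n, hn, hn'⟩ := hgr (f^[N] z) h1 h2 (C + 1) N'
  have h3 := hC n hn
  linarith

end H74F
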