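import Pool.Agent.Lib.H74F.Defs
import Pool.Agent.Lib.H74F.D3

/-!
# Chunk F2 (M)
A recurrent point `a` of a countable compact invariant set is periodic. Let `Ω ⊆ K` be the omega limit set of `a`: closed, countable, nonempty (`a ∈ Ω`), it contains the whole orbit of `a` (invariance: `f` continuous; D3 has the lemmas
`omega_sub`, `omega_maps`: you may import D3). `Ω` is not perfect (`Perfect.exists_nat_bool_injection` / `Perfect.not_countable`-type lemma: a nonempty perfect set in a complete metric space is uncountable), so some `b ∈ Ω` is isolated in `Ω`: a neighbourhood `V` of `b` with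
`V ∩ Ω = {b}`. `b` is a cluster point of the orbit of `a` which lies in `Ω`, so `f^[n] a = b` for infinitely many `n`: `f^[n] a = f^[n + p] a`, `p ≥ 1`. So the orbit of `a` is finite, `= {f^[i] a : i < n + p}`, and `f^[m] a` lies in the finite (closed) set
`{f^[i] a : n ≤ i < n + p}` for all `m ≥ n`; the cluster point `a` lies in it: `a = f^[i] a`, `i ≥ n`; if `i ≥ 1` done (period `i`), if `i = 0` then `n = 0` and `a = f^[p] a`.
-/

set_option autoImplicit false

open Set Filter Topology Metric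

namespace H74F

theorem periodic_of_countable {f : ℂ → ℂ} {K : Set ℂ} (hf : Continuous f) (hK : IsCompact K) (hm : MapsTo f K K)
    (hc : K.Countable) {a : ℂ} (ha : a ∈ K) (hr : Rec f a) : ∃ p : ℕ, 1 ≤ p ∧ f^[p] a = a := by
  have hΩc : IsCompact {b | MapClusterPt b atTop (fun n : ℕ => f^[n] a)} := omega_compact hK hm ha
  have hsub : {b | MapClusterPt b atTop (fun n : ℕ => f^[n] a)} ⊆ K := omega_sub hK.isClosed hm ha
  have hΩm := omega_maps hf a
  have haΩ : a ∈ {b | MapClusterPt b atTop (fun n : ℕ => f^[n] a)} := hr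
  have hiso : ∃ b ∈ {b | MapClusterPt b atTop (fun n : ℕ => f^[n] a)},
      ¬ AccPt b (𝓟 {b | MapClusterPt b atTop (fun n : ℕ => f^[n] a)}) := by
    by_contra hcon
    push Not at hcon
    have hp : Perfect {b | MapClusterPt b atTop (fun n : ℕ => f^[n] a)} := ⟨hΩc.isClosed, hcon⟩
    obtain ⟨g, hg1, _, hg3⟩ := hp.exists_nat_bool_injection ⟨a, haΩ⟩
    have h1 : Countable (range g) := ((hc.mono hsub).mono hg1).to_subtype
    have h2 : Countable (ℕ → Bool) :=
      Function.Injective.countable (f := fun x => (⟨g x, mem_range_self x⟩ : range g))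
        (fun x y hxy => hg3 (Subtype.ext_iff.1 hxy))
    have h3 : Cardinal.mk (ℕ → Bool) ≤ Cardinal.aleph0 := Cardinal.mk_le_aleph0
    rw [← Cardinal.power_def, Cardinal.mk_bool, Cardinal.mk_nat, Cardinal.two_power_aleph0] at h3
    exact absurd h3 (not_le.2 Cardinal.aleph0_lt_continuum)
  obtain ⟨b, hb, hnb⟩ := hiso
  rw [accPt_iff_nhds] at hnb
  push Not at hnb
  obtain ⟨U, hU, hUb⟩ := hnb
  have hfr : ∃ᶠ n in atTop, f^[n] a = b := by
    have h1 : ∃ᶠ n in atTop, f^[n] a ∈ U := (mapClusterPt_iff_frequently.1 hb) U hU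
    refine h1.mono fun n hn => ?_
    exact hUb _ ⟨hn, hΩm.iterate n haΩ⟩
  rw [frequently_atTop] at hfr
  obtain ⟨n1, _, hn1⟩ := hfr 0
  obtain ⟨n2, hn12, hn2⟩ := hfr (n1 + 1)
  obtain ⟨p, rfl⟩ : ∃ p, n2 = p + n1 := ⟨n2 - n1, by omega⟩
  have hp : 1 ≤ p := by omega
  have hper : Function.IsPeriodicPt f p b := by
    show f^[p] b = b
    rw [← hn1, ← Function.iterate_add_apply, hn2, hn1]
  have hfin : ((fun r => f^[r] b) '' (Finset.range p : Set ℕ)).Finite := (Finset.finite_toSet _).image _
  have hmemF : a ∈ (fun r => f^[r] b) '' (Finset.range p : Set ℕ) := by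
    by_contra hnot
    have h1 : ((fun r => f^[r] b) '' (Finset.range p : Set ℕ))ᶜ ∈ 𝓝 a := hfin.isClosed.isOpen_compl.mem_nhds hnot
    have h2 := (mapClusterPt_iff_frequently.1 hr) _ h1
    rw [frequently_atTop] at h2
    obtain ⟨m, hm1, hm2⟩ := h2 n1
    apply hm2
    refine ⟨(m - n1) % p, ?_, ?_⟩
    · rw [Finset.mem_coe, Finset.mem_range]
      exact Nat.mod_lt _ (by omega)
    · show f^[(m - n1) % p] b = f^[m] a
      rw [hper.iterate_mod_apply, ← hn1, ← Function.iterate_add_apply, Nat.sub_add_cancel hm1]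
  obtain ⟨r, _, hr2⟩ := hmemF
  have h3 : f^[r + n1] a = a := by
    rw [Function.iterate_add_apply, hn1]
    exact hr2
  rcases Nat.eq_zero_or_pos (r + n1) with h0 | h0
  · have hn0 : n1 = 0 := by omega
    refine ⟨p, hp, ?_⟩
    rw [hn0, Function.iterate_zero, id] at hn1
    rw [hn1]
    exact hper
  · exact ⟨r + n1, h0, h3⟩

end H74F
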