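import Pool.Agent.Lib.H74F.Defs
import Pool.Agent.Lib.H74F.A5
import Pool.Agent.Lib.H74F.A10

/-!
# Chunk F3 (M)
`f^[p] a = a`, `λ = deriv f^[p] a`. `‖λ‖ ≤ 1`: `deriv f^[p k] a = λ^k` (`HasDerivAt.iterate` for `f^[p]` at the fixed point, `Function.iterate_mul`) is bounded. `‖λ‖ < 1` is impossible: take `‖λ‖ < μ < 1` and `r > 0` with
`dist (f^[p] x) a ≤ μ * dist x a` on `ball a r` (from the derivative: `HasDerivAt` little-o). `z0 ∈ D`: `a` is a cluster point of the orbit of `z0` (`KK_eq`), so `x := f^[m] z0 ∈ ball a r` for some `m`, then `f^[p k] x → a`, and `f^[p k + i] x → f^[i] a` for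
`i < p`. So every cluster point of the orbit of `z0` is one of `f^[i] a`, `i < p` (a subsequence has constant residue mod `p`; or: for every neighbourhood of the finite closed set the orbit is eventually in it), hence `KK f D` is finite: contradiction with `KK_infinite`.
-/

set_option autoImplicit false

open Set Filter Topology Metric

namespace H74F

private theorem f3_contr {g : ℂ → ℂ} {a l : ℂ} (hg : HasDerivAt g l a) (hga : g a = a)
    (hl : ‖l‖ < 1) : ∃ μ r : ℝ, 0 ≤ μ ∧ μ < 1 ∧ 0 < r ∧ ∀ x, dist x a < r → dist (g x) a ≤ μ * dist x a := by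
  obtain ⟨μ, hlμ, hμ1⟩ := exists_between hl
  have h1 := hasDerivAt_iff_isLittleO.1 hg
  have h2 := h1.def (sub_pos.2 hlμ)
  obtain ⟨r, hr, hr2⟩ := Metric.eventually_nhds_iff.1 h2
  refine ⟨μ, r, (norm_nonneg l).trans hlμ.le, hμ1, hr, fun x hx => ?_⟩
  have h3 := hr2 hx
  rw [hga, smul_eq_mul] at h3
  rw [dist_eq_norm, dist_eq_norm]
  calc ‖g x - a‖ = ‖(g x - a - (x - a) * l) + (x - a) * l‖ := by congr 1; ring
    _ ≤ ‖g x - a - (x - a) * l‖ + ‖(x - a) * l‖ := norm_add_le _ _
    _ ≤ (μ - ‖l‖) * ‖x - a‖ + ‖x - a‖ * ‖l‖ := by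
        rw [norm_mul]
        exact add_le_add h3 le_rfl
    _ = μ * ‖x - a‖ := by ring

private theorem f3_iter {g : ℂ → ℂ} {a : ℂ} {μ r : ℝ} (hμ0 : 0 ≤ μ) (hμ1 : μ < 1)
    (hg : ∀ x, dist x a < r → dist (g x) a ≤ μ * dist x a) {x : ℂ} (hx : dist x a < r) (k : ℕ) :
    dist (g^[k] x) a < r ∧ dist (g^[k] x) a ≤ μ ^ k * dist x a := by
  induction k with
  | zero => exact ⟨hx, by simp⟩
  | succ k ih =>
    rw [Function.iterate_succ_apply']
    have h1 := hg _ ih.1
    have h2 : μ * dist (g^[k] x) a ≤ dist (g^[k] x) a := mul_le_of_le_one_left dist_nonneg hμ1.le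
    refine ⟨(h1.trans h2).trans_lt ih.1, h1.trans ?_⟩
    calc μ * dist (g^[k] x) a ≤ μ * (μ ^ k * dist x a) := mul_le_mul_of_nonneg_left ih.2 hμ0
      _ = μ ^ (k + 1) * dist x a := by ring

private theorem f3_tendsto {g : ℂ → ℂ} {a : ℂ} {μ r : ℝ} (hμ0 : 0 ≤ μ) (hμ1 : μ < 1)
    (hg : ∀ x, dist x a < r → dist (g x) a ≤ μ * dist x a) {x : ℂ} (hx : dist x a < r) :
    Tendsto (fun k => g^[k] x) atTop (𝓝 a) := by
  rw [tendsto_iff_dist_tendsto_zero]
  refine squeeze_zero (fun _ => dist_nonneg) (fun k => (f3_iter hμ0 hμ1 hg hx k).2) ?_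
  have h1 := (tendsto_pow_atTop_nhds_zero_of_lt_one hμ0 hμ1).mul_const (dist x a)
  rwa [zero_mul] at h1

theorem mult_one {f : ℂ → ℂ} {D : Set ℂ} {R : ℝ} (h : Wd f D R) {a : ℂ} (ha : a ∈ KK f D) {p : ℕ} (hp : 1 ≤ p)
    (hfix : f^[p] a = a) (hb : ∃ C : ℝ, ∀ n : ℕ, ‖deriv f^[n] a‖ ≤ C) : ‖deriv f^[p] a‖ = 1 := by
  have hd : HasDerivAt f^[p] (deriv f^[p] a) a := (h.entire.iterate p).differentiableAt.hasDerivAt
  refine le_antisymm ?_ ?_
  · obtain ⟨C, hC⟩ := hb
    by_contra hcon
    push Not at hcon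
    obtain ⟨k, hk⟩ := pow_unbounded_of_one_lt C hcon
    have h1 : HasDerivAt (f^[p])^[k] (deriv f^[p] a ^ k) a := HasDerivAt.iterate a hd hfix k
    have h2 := hC (p * k)
    rw [Function.iterate_mul, h1.deriv, norm_pow] at h2
    linarith
  · by_contra hcon
    push Not at hcon
    obtain ⟨μ, r, hμ0, hμ1, hr, hg⟩ := f3_contr hd hfix hcon
    obtain ⟨z, hz⟩ := h.ne
    have hcl : ∀ b ∈ KK f D, MapClusterPt b atTop (fun n : ℕ => f^[n] z) := fun b hb => by
      rw [KK_eq h hz] at hb
      exact hb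
    obtain ⟨m, hm⟩ := ((hcl a ha).frequently (Metric.ball_mem_nhds a hr)).exists
    set x := f^[m] z with hx
    have hxa : dist x a < r := hm
    have ht := f3_tendsto hμ0 hμ1 hg hxa
    have hfin : (KK f D).Finite := by
      refine Set.Finite.subset ((Finset.range p).finite_toSet.image fun i => f^[i] a) ?_
      intro b hb
      by_contra hbS
      set S : Set ℂ := (fun i => f^[i] a) '' (Finset.range p : Set ℕ) with hS
      have hSf : S.Finite := (Finset.range p).finite_toSet.image _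
      obtain ⟨ε, hε, hε2⟩ := Metric.isOpen_iff.1 hSf.isClosed.isOpen_compl b hbS
      have hi : ∀ i ∈ Finset.range p, ∀ᶠ k in atTop,
          dist (f^[i] ((f^[p])^[k] x)) (f^[i] a) < ε / 2 := by
        intro i _
        have h1 : Tendsto (fun k => f^[i] ((f^[p])^[k] x)) atTop (𝓝 (f^[i] a)) :=
          ((h.entire.iterate i).continuous.tendsto a).comp ht
        exact (Metric.tendsto_nhds.1 h1) (ε / 2) (by positivity)
      obtain ⟨K, hK⟩ := Filter.eventually_atTop.1 ((Filter.eventually_all_finset _).2 hi)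
      obtain ⟨n, hnb, hn⟩ := (((hcl b hb).frequently (Metric.ball_mem_nhds b (half_pos hε))).and_eventually
        (eventually_ge_atTop (m + p * K))).exists
      have hnb' : dist (f^[n] z) b < ε / 2 := hnb
      have hpos : 0 < p := hp
      set i := (n - m) % p with hi'
      set k := (n - m) / p with hk'
      have hip : i < p := Nat.mod_lt _ hpos
      have hkK : K ≤ k := by
        rw [hk', Nat.le_div_iff_mul_le hpos, mul_comm]
        omega
      have hnk : n = i + p * k + m := by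
        have h5 : i + p * k = n - m := Nat.mod_add_div (n - m) p
        rw [h5]
        have h6 : m ≤ n := le_trans (Nat.le_add_right _ _) hn
        omega
      have h2 : f^[n] z = f^[i] ((f^[p])^[k] x) := by
        rw [hnk, Function.iterate_add_apply, Function.iterate_add_apply, Function.iterate_mul]
      have h3 := hK k hkK i (Finset.mem_range.2 hip)
      have h4 : f^[i] a ∈ Metric.ball b ε := by
        rw [Metric.mem_ball, dist_comm]
        calc dist b (f^[i] a) ≤ dist b (f^[n] z) + dist (f^[n] z) (f^[i] a) := dist_triangle _ _ _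
          _ < ε / 2 + ε / 2 := by
              refine add_lt_add (by rw [dist_comm]; exact hnb') ?_
              rw [h2]
              exact h3
          _ = ε := by ring
      exact hε2 h4 ⟨i, by simpa using hip, rfl⟩
    exact KK_infinite h hfin

end H74F
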