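import Pool.Agent.Lib.H74F.Defs
import Pool.Agent.Lib.H74F.A4
import Pool.Agent.Lib.H74F.A9
import Pool.Agent.Lib.H74F.F1
import Pool.Agent.Lib.H74F.F2
import Pool.Agent.Lib.H74F.F3

/-!
# Assembly of the theorem in one statement
-/

set_option autoImplicit false

open Set Filter Topology Metric

namespace H74F

theorem final2 {f : ℂ → ℂ} (hf : Differentiable ℂ f) {D : Set ℂ} (hD : IsFatouComponent f D)
    (hinf : (limitConstants f D).Infinite) {R : ℝ}
    (hR : limitConstants f D ⊆ (fun z : ℂ => (z : OnePoint ℂ)) '' closedBall 0 R) :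
    ∃ a : ℂ, (a : OnePoint ℂ) ∈ limitConstants f D ∧ a ∉ fatouSet f ∧
      MapClusterPt a atTop (fun n : ℕ => f^[n] a) ∧ (∃ C : ℝ, ∀ n : ℕ, ‖deriv f^[n] a‖ ≤ C) ∧
      ((limitConstants f D).Countable → ∃ p : ℕ, 1 ≤ p ∧ f^[p] a = a ∧ ‖deriv f^[p] a‖ = 1) := by
  obtain ⟨h1, h2, h3, h4⟩ := component_facts hD
  have hW : Wd f D R :=
    { entire := hf, opn := h1, conn := h2, ne := h3, normal := h4, inf := hinf, bdd := hR }
  obtain ⟨a, ha, hr, hC⟩ := main1 hW
  have hJ : ∀ b ∈ KK f D, b ∉ fatouSet f := fun b hb => Set.disjoint_left.1 (KK_julia hW) hb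
  refine ⟨a, ha, hJ a ha, hr, hC, fun hcount => ?_⟩
  have hKc : (KK f D).Countable := hcount.preimage OnePoint.coe_injective
  obtain ⟨p, hp, hfix⟩ :=
    periodic_of_countable hf.continuous (KK_compact hW) (KK_maps hW) hKc ha hr
  exact ⟨p, hp, hfix, mult_one hW ha hp hfix hC⟩

end H74F
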